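import Pool.Agent.Y333.TC.LevD
import Pool.Agent.H510R2.Div

/-! Project TS (helper675): the level of distribution of the quartic form in boxes whose second side
is shifted by `S`, uniformly in `S`; adapted from `Y333/TC/LevC`, `LevD`, `Lev` of helper333. -/

set_option autoImplicit false

namespace Pool.Agent.Y675.TS

open Finset Pool.Agent.Y675.TC Pool.Agent.Y333.TC

/-- the values of the form, the second variable shifted -/
def vvS (B Q S : ℕ) (i : ℕ × ℕ × ℕ × ℕ) : ℕ :=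
  (FF B ((Q * (i.1 + i.2.1) : ℕ) : ℤ) ((1 + Q * (S + (i.2.2.1 + i.2.2.2)) : ℕ) : ℤ)).natAbs

theorem ident (B Q S M : ℕ) {q : ℕ} (hq : 0 < q) {c' : ℤ} (hc : (Q : ℤ) * c' ≡ 1 [ZMOD q]) :
    (((Om M).filter (fun i => q ∣ vvS B Q S i)).card : ℂ) * (q : ℂ) ^ 2 =
      ∑ J ∈ range q, ∑ K ∈ range q, AA B q (J * c') (K * c') *
        (ee (-(((K : ℤ) * c' : ℤ) : ℝ) / q) * ee (((-(K : ℤ) * (S : ℤ) : ℤ) : ℝ) / q)) *
        (TT M q (-(J : ℤ)) ^ 2 * TT M q (-(K : ℤ)) ^ 2) := by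
  classical
  have h1 : (((Om M).filter (fun i => q ∣ vvS B Q S i)).card : ℂ) * (q : ℂ) ^ 2 =
      ∑ i ∈ Om M, ∑ J ∈ range q, ∑ K ∈ range q, AA B q (J * c') (K * c') *
      (ee (-(((K : ℤ) * c' : ℤ) : ℝ) / q) * ee (((-(K : ℤ) * (S : ℤ) : ℤ) : ℝ) / q)) *
      (ee (((-(J : ℤ) * ((i.1 + i.2.1 : ℕ) : ℤ) : ℤ) : ℝ) / q) *
        ee (((-(K : ℤ) * ((i.2.2.1 + i.2.2.2 : ℕ) : ℤ) : ℤ) : ℝ) / q)) := by
    rw [Finset.natCast_card_filter, sum_mul]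
    refine sum_congr rfl fun i _ => ?_
    have h3 : ∀ J K : ℕ, AA B q (J * c') (K * c') *
        (ee (-(((K : ℤ) * c' : ℤ) : ℝ) / q) * ee (((-(K : ℤ) * (S : ℤ) : ℤ) : ℝ) / q)) *
        (ee (((-(J : ℤ) * ((i.1 + i.2.1 : ℕ) : ℤ) : ℤ) : ℝ) / q) *
          ee (((-(K : ℤ) * ((i.2.2.1 + i.2.2.2 : ℕ) : ℤ) : ℤ) : ℝ) / q)) =
        AA B q (J * c') (K * c') * ee (-(((K : ℤ) * c' : ℤ) : ℝ) / q) *
        (ee (((-(J : ℤ) * ((i.1 + i.2.1 : ℕ) : ℤ) : ℤ) : ℝ) / q) *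
          ee (((-(K : ℤ) * ((S : ℤ) + ((i.2.2.1 + i.2.2.2 : ℕ) : ℤ)) : ℤ) : ℝ) / q)) := by
      intro J K
      have h4 : ee (((-(K : ℤ) * ((S : ℤ) + ((i.2.2.1 + i.2.2.2 : ℕ) : ℤ)) : ℤ) : ℝ) / q) =
          ee (((-(K : ℤ) * (S : ℤ) : ℤ) : ℝ) / q) *
          ee (((-(K : ℤ) * ((i.2.2.1 + i.2.2.2 : ℕ) : ℤ) : ℤ) : ℝ) / q) := by
        rw [← ee_add]
        congr 1
        push_cast
        ring
      rw [h4]
      ring
    rw [sum_congr rfl fun J _ => sum_congr rfl fun K _ => h3 J K, single B hq hc]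
    congr 1
    have h2 : q ∣ vvS B Q S i ↔ (q : ℤ) ∣ FF B ((Q : ℤ) * ((i.1 + i.2.1 : ℕ) : ℤ))
        (1 + (Q : ℤ) * ((S : ℤ) + ((i.2.2.1 + i.2.2.2 : ℕ) : ℤ))) := by
      unfold vvS
      rw [← Int.natCast_dvd]
      push_cast
      rfl
    simp only [h2]
  rw [h1, sum_comm]
  refine sum_congr rfl fun J _ => ?_
  rw [sum_comm]
  refine sum_congr rfl fun K _ => ?_
  rw [← mul_sum, ← TT_sq]

theorem main_err (hE : S_EXP) (B S : ℕ) {q Q M : ℕ} (hq : 0 < q) (hs : Squarefree q)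
    (hQ : q.Coprime Q) :
    |(((Om M).filter (fun i => q ∣ vvS B Q S i)).card : ℝ) -
        (M : ℝ) ^ 4 * ∏ p ∈ q.primeFactors, gd B p| * (q : ℝ) ^ 2 ≤
      7 ^ q.primeFactors.card * (
        (M : ℝ) ^ 2 * ∑ J ∈ Ico 1 q, ∑ K ∈ Ico 1 q, (Nat.gcd q (FF B K J).natAbs : ℝ) * wt q J * wt q K +
        (M : ℝ) ^ 3 * ∑ J ∈ Ico 1 q, (Nat.gcd q (FF B 0 J).natAbs : ℝ) * wt q J +
        (M : ℝ) ^ 3 * ∑ K ∈ Ico 1 q, (Nat.gcd q (FF B K 0).natAbs : ℝ) * wt q K) := by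
  obtain ⟨c', hc⟩ : ∃ c' : ℤ, (Q : ℤ) * c' ≡ 1 [ZMOD q] := by
    have h1 := Int.gcd_eq_gcd_ab Q q
    have h2 : Int.gcd (Q : ℤ) q = 1 := by
      rw [Int.gcd_natCast_natCast]
      exact hQ.symm
    rw [h2] at h1
    refine ⟨Int.gcdA Q q, ?_⟩
    rw [Int.modEq_iff_dvd]
    refine ⟨Int.gcdB Q q, ?_⟩
    push_cast at h1
    linear_combination h1
  have hq0 : (0 : ℝ) < q := by exact_mod_cast hq
  obtain ⟨hA0, -⟩ := hE B q hs
  -- the bounds of the linear sums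
  have hwt : ∀ J ∈ Ico 1 q, ‖TT M q (-(J : ℤ))‖ ^ 2 ≤ M * wt q J := by
    intro J hJ
    rw [mem_Ico] at hJ
    rw [sq]
    exact mul_le_mul (TT_le M q _) (TT_bd M hJ.1 hJ.2) (norm_nonneg _) (Nat.cast_nonneg _)
  have hwt0 : ∀ J ∈ Ico 1 q, 0 ≤ wt q J := by
    intro J hJ
    rw [mem_Ico] at hJ
    have h1 : (0 : ℝ) < J := by exact_mod_cast hJ.1
    have h2 : (J : ℝ) < q := by exact_mod_cast hJ.2
    have h3 : (0 : ℝ) < q - J := by linarith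
    unfold wt
    positivity
  -- the terms
  set t : ℕ → ℕ → ℂ := fun J K => AA B q (J * c') (K * c') *
        (ee (-(((K : ℤ) * c' : ℤ) : ℝ) / q) * ee (((-(K : ℤ) * (S : ℤ) : ℤ) : ℝ) / q)) *
        (TT M q (-(J : ℤ)) ^ 2 * TT M q (-(K : ℤ)) ^ 2) with ht
  have hid := ident B Q S M hq hc
  have ht00 : t 0 0 = ((((M : ℝ) ^ 4 * ∏ p ∈ q.primeFactors, gd B p) * (q : ℝ) ^ 2 : ℝ) : ℂ) := by
    simp only [ht]
    simp only [Nat.cast_zero, zero_mul, neg_zero, Int.cast_zero, zero_div, ee_zero, TT_zero]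
    rw [hA0]
    push_cast
    ring
  have hsplit : ∑ J ∈ range q, ∑ K ∈ range q, t J K = t 0 0 + (∑ K ∈ Ico 1 q, t 0 K +
      (∑ J ∈ Ico 1 q, t J 0 + ∑ J ∈ Ico 1 q, ∑ K ∈ Ico 1 q, t J K)) := by
    rw [sum_range_eq_add_Ico _ hq, sum_range_eq_add_Ico _ hq]
    rw [sum_congr rfl fun J _ => sum_range_eq_add_Ico (t J) hq, sum_add_distrib]
    ring
  have htb : ∀ J K : ℕ, ‖t J K‖ ≤ 7 ^ q.primeFactors.card * (Nat.gcd q (FF B K J).natAbs : ℝ) *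
      (‖TT M q (-(J : ℤ))‖ ^ 2 * ‖TT M q (-(K : ℤ))‖ ^ 2) := by
    intro J K
    simp only [ht]
    rw [norm_mul, norm_mul, norm_mul, norm_mul, ee_norm, ee_norm, mul_one, mul_one, norm_pow, norm_pow]
    exact mul_le_mul_of_nonneg_right (AA_bd hE B hs hc J K) (by positivity)
  have hdiff : (((((Om M).filter (fun i => q ∣ vvS B Q S i)).card : ℝ) -
        (M : ℝ) ^ 4 * ∏ p ∈ q.primeFactors, gd B p) * (q : ℝ) ^ 2 : ℝ) =
      (∑ K ∈ Ico 1 q, t 0 K + (∑ J ∈ Ico 1 q, t J 0 + ∑ J ∈ Ico 1 q, ∑ K ∈ Ico 1 q, t J K)) := by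
    rw [hsplit, ht00] at hid
    rw [sub_mul]
    push_cast at hid ⊢
    rw [hid]
    ring
  have hL : |(((Om M).filter (fun i => q ∣ vvS B Q S i)).card : ℝ) -
        (M : ℝ) ^ 4 * ∏ p ∈ q.primeFactors, gd B p| * (q : ℝ) ^ 2 =
      ‖∑ K ∈ Ico 1 q, t 0 K + (∑ J ∈ Ico 1 q, t J 0 + ∑ J ∈ Ico 1 q, ∑ K ∈ Ico 1 q, t J K)‖ := by
    rw [← hdiff, Complex.norm_real, Real.norm_eq_abs, abs_mul, abs_of_pos (pow_pos hq0 2)]
  rw [hL]
  have hT0 : ‖TT M q (-((0 : ℕ) : ℤ))‖ ^ 2 = (M : ℝ) ^ 2 := by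
    rw [Nat.cast_zero, neg_zero, TT_zero, Complex.norm_natCast]
  have b1 : ‖∑ K ∈ Ico 1 q, t 0 K‖ ≤ 7 ^ q.primeFactors.card *
      ((M : ℝ) ^ 3 * ∑ K ∈ Ico 1 q, (Nat.gcd q (FF B K 0).natAbs : ℝ) * wt q K) := by
    rw [mul_sum, mul_sum]
    refine (norm_sum_le _ _).trans (sum_le_sum fun K hK => (htb 0 K).trans ?_)
    rw [hT0, Nat.cast_zero]
    have h1 := mul_le_mul_of_nonneg_left (hwt K hK) (a := 7 ^ q.primeFactors.card *
      (Nat.gcd q (FF B K 0).natAbs : ℝ) * (M : ℝ) ^ 2) (by positivity)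
    linarith
  have b2 : ‖∑ J ∈ Ico 1 q, t J 0‖ ≤ 7 ^ q.primeFactors.card *
      ((M : ℝ) ^ 3 * ∑ J ∈ Ico 1 q, (Nat.gcd q (FF B 0 J).natAbs : ℝ) * wt q J) := by
    rw [mul_sum, mul_sum]
    refine (norm_sum_le _ _).trans (sum_le_sum fun J hJ => (htb J 0).trans ?_)
    rw [hT0, Nat.cast_zero]
    have h1 := mul_le_mul_of_nonneg_left (hwt J hJ) (a := 7 ^ q.primeFactors.card *
      (Nat.gcd q (FF B 0 J).natAbs : ℝ) * (M : ℝ) ^ 2) (by positivity)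
    linarith
  have b3 : ‖∑ J ∈ Ico 1 q, ∑ K ∈ Ico 1 q, t J K‖ ≤ 7 ^ q.primeFactors.card *
      ((M : ℝ) ^ 2 * ∑ J ∈ Ico 1 q, ∑ K ∈ Ico 1 q,
        (Nat.gcd q (FF B K J).natAbs : ℝ) * wt q J * wt q K) := by
    rw [mul_sum, mul_sum]
    refine (norm_sum_le _ _).trans (sum_le_sum fun J hJ => ?_)
    rw [mul_sum, mul_sum]
    refine (norm_sum_le _ _).trans (sum_le_sum fun K hK => (htb J K).trans ?_)
    have h2 : ‖TT M q (-(J : ℤ))‖ ^ 2 * ‖TT M q (-(K : ℤ))‖ ^ 2 ≤ (M * wt q J) * (M * wt q K) :=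
      mul_le_mul (hwt J hJ) (hwt K hK) (by positivity)
        (mul_nonneg (Nat.cast_nonneg _) (hwt0 J hJ))
    have h1 := mul_le_mul_of_nonneg_left h2 (a := 7 ^ q.primeFactors.card *
      (Nat.gcd q (FF B K J).natAbs : ℝ)) (by positivity)
    linarith
  refine (norm_add_le _ _).trans ?_
  have h3 := norm_add_le (∑ J ∈ Ico 1 q, t J 0) (∑ J ∈ Ico 1 q, ∑ K ∈ Ico 1 q, t J K)
  linarith

theorem main_err2 (hE : S_EXP) (B S : ℕ) {q Q M : ℕ} (hq : 0 < q) (hs : Squarefree q)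
    (hQ : q.Coprime Q) :
    |(((Om M).filter (fun i => q ∣ vvS B Q S i)).card : ℝ) -
        (M : ℝ) ^ 4 * ∏ p ∈ q.primeFactors, gd B p| ≤
      7 ^ q.primeFactors.card * (
        (M : ℝ) ^ 2 * ∑ J ∈ Ico 1 q, ∑ K ∈ Ico 1 q,
          (Nat.gcd q (FF B K J).natAbs : ℝ) / (K * J) +
        (M : ℝ) ^ 3 * ∑ J ∈ Ico 1 q, (Nat.gcd q (FF B 0 J).natAbs : ℝ) / q / J +
        (M : ℝ) ^ 3 * ∑ K ∈ Ico 1 q, (Nat.gcd q (FF B K 0).natAbs : ℝ) / q / K) := by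
  have hq0 : (0 : ℝ) < q := by exact_mod_cast hq
  have h1 := main_err hE B S (M := M) hq hs hQ
  have e1 : ∑ J ∈ Ico 1 q, (Nat.gcd q (FF B 0 J).natAbs : ℝ) * wt q J =
      (q : ℝ) ^ 2 * ∑ J ∈ Ico 1 q, (Nat.gcd q (FF B 0 J).natAbs : ℝ) / q / J := by
    rw [sum_wt (fun J => (Nat.gcd q (FF B 0 J).natAbs : ℝ)) (fun J hJ => by
      rw [gcd_sub_right B (mem_Ico.1 hJ).2.le]), mul_sum, mul_sum]
    refine sum_congr rfl fun J _ => ?_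
    field_simp
  have e2 : ∑ K ∈ Ico 1 q, (Nat.gcd q (FF B K 0).natAbs : ℝ) * wt q K =
      (q : ℝ) ^ 2 * ∑ K ∈ Ico 1 q, (Nat.gcd q (FF B K 0).natAbs : ℝ) / q / K := by
    rw [sum_wt (fun K => (Nat.gcd q (FF B K 0).natAbs : ℝ)) (fun K hK => by
      rw [gcd_sub_left B (mem_Ico.1 hK).2.le]), mul_sum, mul_sum]
    refine sum_congr rfl fun J _ => ?_
    field_simp
  have e3 : ∑ J ∈ Ico 1 q, ∑ K ∈ Ico 1 q, (Nat.gcd q (FF B K J).natAbs : ℝ) * wt q J * wt q K =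
      (q : ℝ) ^ 2 * ∑ J ∈ Ico 1 q, ∑ K ∈ Ico 1 q,
          (Nat.gcd q (FF B K J).natAbs : ℝ) / (K * J) := by
    have e4 : ∀ J ∈ Ico 1 q, ∑ K ∈ Ico 1 q, (Nat.gcd q (FF B K J).natAbs : ℝ) * wt q J * wt q K =
        (q * ∑ K ∈ Ico 1 q, (Nat.gcd q (FF B K J).natAbs : ℝ) / K) * wt q J := by
      intro J _
      rw [← sum_wt (fun K => (Nat.gcd q (FF B K J).natAbs : ℝ)) (fun K hK => by
        rw [gcd_sub_left B (mem_Ico.1 hK).2.le]), sum_mul]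
      exact sum_congr rfl fun K _ => by ring
    rw [sum_congr rfl e4, sum_wt (fun J => (q * ∑ K ∈ Ico 1 q,
      (Nat.gcd q (FF B K J).natAbs : ℝ) / K)) (fun J hJ => by
        refine congrArg _ (sum_congr rfl fun K _ => ?_)
        rw [gcd_sub_right B (mem_Ico.1 hJ).2.le]), mul_sum, mul_sum]
    refine sum_congr rfl fun J _ => ?_
    rw [mul_div_assoc, sum_div, ← mul_assoc, ← sq]
    refine congrArg _ (sum_congr rfl fun K _ => ?_)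
    rw [div_div]
  rw [e1, e2, e3] at h1
  refine le_of_mul_le_mul_right (h1.trans (le_of_eq ?_)) (pow_pos hq0 2)
  ring

/-- LEV with a shift -/
def S_LEVS : Prop := ∀ B Q : ℕ, 1 ≤ B → 1 ≤ Q → ∀ ε : ℝ, 0 < ε → ∃ C : ℝ, 0 < C ∧
  ∀ (S M : ℕ) (D : ℝ), 1 ≤ M → 1 ≤ D →
    ∑ q ∈ (Icc 1 ⌊D⌋₊).filter (fun q : ℕ => Squarefree q ∧ q.Coprime Q),
      |(((Om M).filter (fun i => q ∣ vvS B Q S i)).card : ℝ) -
        (M : ℝ) ^ 4 * ∏ p ∈ q.primeFactors, gd B p| ≤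
      C * D ^ ε * ((M : ℝ) ^ 3 + (M : ℝ) ^ 2 * D)

theorem tLev (hE : S_EXP) : S_LEVS := by
  intro B Q hB hQ ε hε
  set δ : ℝ := ε / 9 with hδ
  have hδ0 : 0 < δ := by positivity
  obtain ⟨c₁, hc₁, hdiv⟩ := Pool.Agent.H510R2.divisor_bound δ hδ0
  set A : ℝ := 1 + 6 * B + (B : ℝ) ^ 2 with hA
  have hA0 : 0 < A := by positivity
  set c₃ : ℝ := 1 + 1 / δ with hc₃
  have hc₃0 : 0 < c₃ := by positivity
  refine ⟨2 * c₁ ^ 3 * (c₁ * A ^ δ) * c₃ ^ 2, by positivity, ?_⟩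
  intro S M D hM hD
  have hD0 : 0 < D := by linarith
  set N : ℕ := ⌊D⌋₊ with hN
  have hND : (N : ℝ) ≤ D := Nat.floor_le hD0.le
  have hDδ : 1 ≤ D ^ δ := Real.one_le_rpow hD hδ0.le
  -- the three quantities
  set W : ℝ := (c₁ * D ^ δ) ^ 3 with hW
  set τ : ℝ := c₁ * A ^ δ * (D ^ δ) ^ 4 with hτ
  have hW0 : 0 < W := by positivity
  have hτ0 : 0 < τ := by positivity
  have hH : HH N ≤ c₃ * D ^ δ := by
    refine (HH_le N).trans ?_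
    have h1 : Real.log N ≤ Real.log D := by
      rcases Nat.eq_zero_or_pos N with h | h
      · rw [h, Nat.cast_zero, Real.log_zero]
        exact Real.log_nonneg hD
      · exact Real.log_le_log (by exact_mod_cast h) hND
    have h2 := Real.log_le_rpow_div hD0.le hδ0
    rw [hc₃]
    have : (1 + 1 / δ) * D ^ δ = D ^ δ + D ^ δ / δ := by ring
    linarith
  have hW1 : ∀ q ∈ Icc 1 N, (7 : ℝ) ^ q.primeFactors.card ≤ W := by
    intro q hq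
    rw [mem_Icc] at hq
    refine (seven_pow (by omega)).trans (pow_le_pow_left₀ (Nat.cast_nonneg _) ?_ 3)
    refine (hdiv q hq.1).trans (mul_le_mul_of_nonneg_left ?_ hc₁.le)
    exact Real.rpow_le_rpow (Nat.cast_nonneg _) ((Nat.cast_le.2 hq.2).trans hND) hδ0.le
  have hτ1 : ∀ J K : ℕ, J ≤ N → K ≤ N → (1 ≤ J ∨ 1 ≤ K) →
      (FF B K J).natAbs ≠ 0 ∧ ((FF B K J).natAbs.divisors.card : ℝ) ≤ τ := by
    intro J K hJ hK h
    obtain ⟨h1, h2⟩ := FF_bounds hB hJ hK h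
    refine ⟨h1, (hdiv _ (Nat.pos_of_ne_zero h1)).trans ?_⟩
    rw [hτ, mul_assoc]
    refine mul_le_mul_of_nonneg_left ?_ hc₁.le
    have h3 : ((FF B K J).natAbs : ℝ) ≤ A * D ^ 4 := by
      refine h2.trans ?_
      gcongr
    calc ((FF B K J).natAbs : ℝ) ^ δ ≤ (A * D ^ 4) ^ δ :=
          Real.rpow_le_rpow (Nat.cast_nonneg _) h3 hδ0.le
      _ = A ^ δ * (D ^ δ) ^ 4 := by
          rw [Real.mul_rpow hA0.le (by positivity), ← Real.rpow_natCast D 4,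
            ← Real.rpow_natCast (D ^ δ) 4, ← Real.rpow_mul hD0.le, ← Real.rpow_mul hD0.le,
            mul_comm δ]
  -- the error for each modulus
  have hsub : ∀ q ∈ Icc 1 N, Ico 1 q ⊆ Icc 1 N := by
    intro q hq J hJ
    rw [mem_Icc] at *
    rw [mem_Ico] at hJ
    omega
  have h1 : ∑ q ∈ (Icc 1 N).filter (fun q : ℕ => Squarefree q ∧ q.Coprime Q),
      |(((Om M).filter (fun i => q ∣ vvS B Q S i)).card : ℝ) -
        (M : ℝ) ^ 4 * ∏ p ∈ q.primeFactors, gd B p| ≤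
      ∑ q ∈ Icc 1 N, W * (
        (M : ℝ) ^ 2 * ∑ J ∈ Icc 1 N, ∑ K ∈ Icc 1 N,
          (Nat.gcd q (FF B K J).natAbs : ℝ) / (K * J) +
        (M : ℝ) ^ 3 * ∑ J ∈ Icc 1 N, (Nat.gcd q (FF B 0 J).natAbs : ℝ) / q / J +
        (M : ℝ) ^ 3 * ∑ K ∈ Icc 1 N, (Nat.gcd q (FF B K 0).natAbs : ℝ) / q / K) := by
    refine (sum_le_sum fun q hq => ?_).trans
      (sum_le_sum_of_subset_of_nonneg (filter_subset _ _) fun q _ _ => by positivity)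
    obtain ⟨hq1, hq2, hq3⟩ := mem_filter.1 hq
    refine (main_err2 hE B S (by rw [mem_Icc] at hq1; omega) hq2 hq3).trans ?_
    refine mul_le_mul (hW1 q hq1) ?_ (by positivity) hW0.le
    have hs := hsub q hq1
    refine add_le_add (add_le_add ?_ ?_) ?_
    · refine mul_le_mul_of_nonneg_left ?_ (by positivity)
      refine (sum_le_sum fun J _ => sum_le_sum_of_subset_of_nonneg hs fun K _ _ => by positivity).trans
        (sum_le_sum_of_subset_of_nonneg hs fun J _ _ => sum_nonneg fun K _ => by positivity)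
    · refine mul_le_mul_of_nonneg_left ?_ (by positivity)
      exact sum_le_sum_of_subset_of_nonneg hs fun J _ _ => by positivity
    · refine mul_le_mul_of_nonneg_left ?_ (by positivity)
      exact sum_le_sum_of_subset_of_nonneg hs fun J _ _ => by positivity
  refine h1.trans ?_
  rw [← mul_sum, sum_add_distrib, sum_add_distrib, ← mul_sum, ← mul_sum, ← mul_sum]
  -- the three sums
  have hHdef : ∑ J ∈ Icc 1 N, 1 / (J : ℝ) = HH N := rfl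
  have hH0 := HH_nonneg N
  have s1 : ∑ q ∈ Icc 1 N, ∑ J ∈ Icc 1 N, ∑ K ∈ Icc 1 N,
      (Nat.gcd q (FF B K J).natAbs : ℝ) / (K * J) ≤ D * τ * (HH N * HH N) := by
    rw [sum_comm]
    have h2 : ∀ J ∈ Icc 1 N, ∑ q ∈ Icc 1 N, ∑ K ∈ Icc 1 N,
        (Nat.gcd q (FF B K J).natAbs : ℝ) / (K * J) ≤ ∑ K ∈ Icc 1 N, D * τ * (1 / J * (1 / K)) := by
      intro J hJ
      rw [sum_comm]
      refine sum_le_sum fun K hK => ?_
      rw [mem_Icc] at hJ hK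
      obtain ⟨h3, h4⟩ := hτ1 J K hJ.2 hK.2 (Or.inl hJ.1)
      rw [← sum_div]
      have h5 : ∑ q ∈ Icc 1 N, (Nat.gcd q (FF B K J).natAbs : ℝ) ≤ D * τ :=
        (sum_gcd N h3).trans (mul_le_mul hND h4 (Nat.cast_nonneg _) hD0.le)
      refine (div_le_div_of_nonneg_right h5 (by positivity)).trans (le_of_eq ?_)
      have : (J : ℝ) ≠ 0 := by exact_mod_cast (show J ≠ 0 by omega)
      have : (K : ℝ) ≠ 0 := by exact_mod_cast (show K ≠ 0 by omega)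
      field_simp
    refine (sum_le_sum h2).trans (le_of_eq ?_)
    rw [← hHdef, sum_mul_sum, mul_sum]
    exact sum_congr rfl fun J _ => by rw [mul_sum]
  have s2 : ∑ q ∈ Icc 1 N, ∑ J ∈ Icc 1 N, (Nat.gcd q (FF B 0 J).natAbs : ℝ) / q / J ≤
      τ * HH N * HH N := by
    rw [sum_comm, ← hHdef, mul_sum]
    refine sum_le_sum fun J hJ => ?_
    rw [mem_Icc] at hJ
    obtain ⟨h3, h4⟩ := hτ1 J 0 hJ.2 (Nat.zero_le _) (Or.inl hJ.1)
    rw [Nat.cast_zero] at h3 h4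
    rw [← sum_div, hHdef, mul_one_div]
    refine div_le_div_of_nonneg_right ?_ (Nat.cast_nonneg _)
    exact (sum_gcd_div N h3).trans (mul_le_mul_of_nonneg_right h4 hH0)
  have s3 : ∑ q ∈ Icc 1 N, ∑ K ∈ Icc 1 N, (Nat.gcd q (FF B K 0).natAbs : ℝ) / q / K ≤
      τ * HH N * HH N := by
    rw [sum_comm, ← hHdef, mul_sum]
    refine sum_le_sum fun J hJ => ?_
    rw [mem_Icc] at hJ
    obtain ⟨h3, h4⟩ := hτ1 0 J (Nat.zero_le _) hJ.2 (Or.inr hJ.1)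
    rw [Nat.cast_zero] at h3 h4
    rw [← sum_div, hHdef, mul_one_div]
    refine div_le_div_of_nonneg_right ?_ (Nat.cast_nonneg _)
    exact (sum_gcd_div N h3).trans (mul_le_mul_of_nonneg_right h4 hH0)
  have hM0 : (0 : ℝ) ≤ M := Nat.cast_nonneg _
  have hHH : HH N * HH N ≤ (c₃ * D ^ δ) * (c₃ * D ^ δ) := mul_le_mul hH hH hH0 (by positivity)
  have hpow : D ^ ε = (D ^ δ) ^ 9 := by
    rw [← Real.rpow_natCast (D ^ δ) 9, ← Real.rpow_mul hD0.le]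
    congr 1
    rw [hδ]
    push_cast
    ring
  calc W * ((M : ℝ) ^ 2 * (∑ q ∈ Icc 1 N, ∑ J ∈ Icc 1 N, ∑ K ∈ Icc 1 N,
          (Nat.gcd q (FF B K J).natAbs : ℝ) / (K * J)) +
        (M : ℝ) ^ 3 * (∑ q ∈ Icc 1 N, ∑ J ∈ Icc 1 N, (Nat.gcd q (FF B 0 J).natAbs : ℝ) / q / J) +
        (M : ℝ) ^ 3 * (∑ q ∈ Icc 1 N, ∑ K ∈ Icc 1 N, (Nat.gcd q (FF B K 0).natAbs : ℝ) / q / K))
      ≤ W * ((M : ℝ) ^ 2 * (D * τ * (HH N * HH N)) + (M : ℝ) ^ 3 * (τ * HH N * HH N) +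
        (M : ℝ) ^ 3 * (τ * HH N * HH N)) := by gcongr
    _ = W * τ * (HH N * HH N) * ((M : ℝ) ^ 2 * D + 2 * (M : ℝ) ^ 3) := by ring
    _ ≤ W * τ * ((c₃ * D ^ δ) * (c₃ * D ^ δ)) * (2 * ((M : ℝ) ^ 3 + (M : ℝ) ^ 2 * D)) := by
        have h5 : (M : ℝ) ^ 2 * D + 2 * (M : ℝ) ^ 3 ≤ 2 * ((M : ℝ) ^ 3 + (M : ℝ) ^ 2 * D) := by
          have : 0 ≤ (M : ℝ) ^ 2 * D := by positivity
          linarith
        gcongr
    _ = 2 * c₁ ^ 3 * (c₁ * A ^ δ) * c₃ ^ 2 * D ^ ε * ((M : ℝ) ^ 3 + (M : ℝ) ^ 2 * D) := by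
        rw [hpow, hW, hτ]
        ring

end Pool.Agent.Y675.TS
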