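import Pool.Agent.Y675.TS.Core
import Pool.Agent.Y675.TS.Lev
import Pool.Agent.Y675.TC.Fin2

/-!
Project TS (helper675): many values of the form in shifted boxes without small prime factors and with
at most three prime factors.
-/

set_option autoImplicit false

namespace Pool.Agent.Y675.TS

open Finset Pool.Agent.W23.DC Pool.Agent.Y660.RP Pool.Agent.Y675.TC Filter

lemma vvS_mod (B Q S : ℕ) (i : ℕ × ℕ × ℕ × ℕ) :
    FF B ((Q * (i.1 + i.2.1) : ℕ) : ℤ) ((1 + Q * (S + (i.2.2.1 + i.2.2.2)) : ℕ) : ℤ) ≡ 1 [ZMOD Q] := by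
  have h1 : ((Q * (i.1 + i.2.1) : ℕ) : ℤ) ≡ 0 [ZMOD Q] := by
    push_cast
    exact (Int.modEq_zero_iff_dvd).2 (Dvd.intro _ rfl)
  have h2 : ((1 + Q * (S + (i.2.2.1 + i.2.2.2)) : ℕ) : ℤ) ≡ 1 [ZMOD Q] := by
    push_cast
    have h3 : (Q : ℤ) * (S + (i.2.2.1 + i.2.2.2)) ≡ 0 [ZMOD Q] :=
      (Int.modEq_zero_iff_dvd).2 (Dvd.intro _ rfl)
    simpa using (Int.ModEq.refl (1 : ℤ)).add h3
  have h3 := FF_modEq (B := B) h1 h2
  have h4 : FF B 0 1 = 1 := by unfold FF; ring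
  rwa [h4] at h3

lemma vvS_pos (B Q S : ℕ) (i : ℕ × ℕ × ℕ × ℕ) :
    0 < FF B ((Q * (i.1 + i.2.1) : ℕ) : ℤ) ((1 + Q * (S + (i.2.2.1 + i.2.2.2)) : ℕ) : ℤ) := by
  apply FF_pos
  push_cast
  positivity

lemma vvS_ne_zero (B Q S : ℕ) (i : ℕ × ℕ × ℕ × ℕ) : vvS B Q S i ≠ 0 := by
  unfold vvS
  exact Int.natAbs_ne_zero.2 (vvS_pos B Q S i).ne'

lemma vvS_cast (B Q S : ℕ) (i : ℕ × ℕ × ℕ × ℕ) : ((vvS B Q S i : ℕ) : ℤ) =
    FF B ((Q * (i.1 + i.2.1) : ℕ) : ℤ) ((1 + Q * (S + (i.2.2.1 + i.2.2.2)) : ℕ) : ℤ) := by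
  unfold vvS
  exact Int.natAbs_of_nonneg (vvS_pos B Q S i).le

lemma vvS_not_dvd {B Q S p : ℕ} (hp : p.Prime) (hpQ : p ∣ Q) (i : ℕ × ℕ × ℕ × ℕ) :
    ¬ p ∣ vvS B Q S i := by
  intro h
  have h1 : (p : ℤ) ∣ FF B ((Q * (i.1 + i.2.1) : ℕ) : ℤ) ((1 + Q * (S + (i.2.2.1 + i.2.2.2)) : ℕ) : ℤ) := by
    rw [← vvS_cast]
    exact_mod_cast h
  have h2 : (p : ℤ) ∣ (Q : ℤ) := by exact_mod_cast hpQ
  have h3 := (vvS_mod B Q S i).of_dvd (m := (p : ℤ)) h2
  have h4 := (Int.modEq_zero_iff_dvd).2 h1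
  have h5 := (Int.modEq_iff_dvd.1 (h4.symm.trans h3))
  have h6 : (p : ℤ) ∣ 1 := by simpa using h5
  have h7 : p ∣ 1 := by exact_mod_cast h6
  exact hp.one_lt.ne' (Nat.dvd_one.1 h7)

open Classical in
theorem rem_leS (B Q S z M : ℕ) (D : ℝ) :
    ∑ q ∈ Lv' z D, Rr (Om M) (vvS B Q S) (gg B Q) ((M : ℝ) ^ 4) q ≤
    ∑ q ∈ (Icc 1 ⌊D⌋₊).filter (fun q : ℕ => Squarefree q ∧ q.Coprime Q),
      |(((Om M).filter (fun i => q ∣ vvS B Q S i)).card : ℝ) -
        (M : ℝ) ^ 4 * ∏ p ∈ q.primeFactors, gd B p| := by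
  classical
  rw [← Finset.sum_filter_add_sum_filter_not (Lv' z D) (fun q => q.Coprime Q)]
  have h1 : ∑ q ∈ (Lv' z D).filter (fun q => ¬ q.Coprime Q),
      Rr (Om M) (vvS B Q S) (gg B Q) ((M : ℝ) ^ 4) q = 0 := by
    apply Finset.sum_eq_zero
    intro q hq
    rw [mem_filter] at hq
    obtain ⟨p, hp, h2, h3⟩ := Nat.Prime.not_coprime_iff_dvd.1 hq.2
    have hq0 : q ≠ 0 := by
      have := (mem_Icc.1 (mem_filter.1 hq.1).1).1
      omega
    unfold Rr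
    have h4 : gp (gg B Q) q = 0 := by
      unfold gp
      apply Finset.prod_eq_zero (i := p) (Nat.mem_primeFactors.2 ⟨hp, h2, hq0⟩)
      unfold gg
      rw [if_pos h3]
    have h5 : (Om M).filter (fun i => q ∣ vvS B Q S i) = ∅ := by
      apply Finset.filter_false_of_mem
      intro i _ h
      exact vvS_not_dvd hp h3 i (h2.trans h)
    rw [h4, h5]
    simp
  rw [h1, add_zero]
  have h2 : ∑ q ∈ (Lv' z D).filter (fun q => q.Coprime Q),
      Rr (Om M) (vvS B Q S) (gg B Q) ((M : ℝ) ^ 4) q =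
      ∑ q ∈ (Lv' z D).filter (fun q => q.Coprime Q),
      |(((Om M).filter (fun i => q ∣ vvS B Q S i)).card : ℝ) -
        (M : ℝ) ^ 4 * ∏ p ∈ q.primeFactors, gd B p| := by
    apply Finset.sum_congr rfl
    intro q hq
    rw [mem_filter] at hq
    unfold Rr gp
    have : ∏ p ∈ q.primeFactors, gg B Q p = ∏ p ∈ q.primeFactors, gd B p := by
      apply Finset.prod_congr rfl
      intro p hp
      unfold gg
      rw [if_neg]
      intro h
      have hpp := Nat.prime_of_mem_primeFactors hp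
      exact Nat.not_coprime_of_dvd_of_dvd hpp.one_lt (Nat.dvd_of_mem_primeFactors hp) h hq.2
    rw [this]
  rw [h2]
  apply Finset.sum_le_sum_of_subset_of_nonneg
  · intro q hq
    rw [mem_filter] at hq
    have h3 := mem_filter.1 hq.1
    exact mem_filter.2 ⟨h3.1, h3.2.1, hq.2⟩
  · intro q _ _
    exact abs_nonneg _

lemma log_pos_constS : 0 < 50 / 49 * (Real.log (73 / 25) - 7 / 10 * Real.log (97 / 25)) := by
  have h : 7 * Real.log (97 / 25) < 10 * Real.log (73 / 25) := by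
    have e1 : 7 * Real.log (97 / 25) = Real.log ((97 / 25) ^ 7) := by
      rw [Real.log_pow]; norm_num
    have e2 : 10 * Real.log (73 / 25) = Real.log ((73 / 25) ^ 10) := by
      rw [Real.log_pow]; norm_num
    rw [e1, e2]
    apply Real.log_lt_log (by norm_num)
    norm_num
  have : 0 < Real.log (73 / 25) - 7 / 10 * Real.log (97 / 25) := by linarith
  positivity

open Classical in
/-- positive weight and no small prime factors give at most three prime factors -/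
lemma omega_leS {N n : ℕ} (hN : 2 ≤ N) (hn : n ≠ 0)
    (hp : ∀ p : ℕ, p.Prime → p ∣ n → 1 / 4 ≤ tt N p)
    (hsz : Real.log n / Real.log N ≤ 226 / 100)
    (hw : 0 < 1 - ∑ q ∈ pr N (1 / 4) (97 / 100), cw N q * (if q ∣ n then 1 else 0)) :
    n.primeFactors.card ≤ 3 := by
  have hNr : (1 : ℝ) < N := by exact_mod_cast (by omega : 1 < N)
  have h1 : ∑ p ∈ n.primeFactors, 7 / 10 * (1 - tt N p / (97 / 100)) ≤
      ∑ q ∈ pr N (1 / 4) (97 / 100), cw N q * (if q ∣ n then 1 else 0) := by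
    have e1 : ∑ q ∈ pr N (1 / 4) (97 / 100), cw N q * (if q ∣ n then 1 else 0) =
        ∑ q ∈ (pr N (1 / 4) (97 / 100)).filter (fun q => q ∣ n), cw N q := by
      rw [Finset.sum_filter]
      apply Finset.sum_congr rfl
      intro q _
      split_ifs <;> simp
    rw [e1, ← Finset.sum_filter_add_sum_filter_not n.primeFactors (fun p => tt N p < 97 / 100)]
    have e2 : ∑ p ∈ n.primeFactors.filter (fun p => ¬ tt N p < 97 / 100),
        7 / 10 * (1 - tt N p / (97 / 100)) ≤ 0 := by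
      apply Finset.sum_nonpos
      intro p hp'
      have h2 := (mem_filter.1 hp').2
      have h3 : 1 ≤ tt N p / (97 / 100) := by
        rw [le_div_iff₀ (by norm_num)]
        linarith
      nlinarith
    have e3 : n.primeFactors.filter (fun p => tt N p < 97 / 100) =
        (pr N (1 / 4) (97 / 100)).filter (fun q => q ∣ n) := by
      ext p
      simp only [mem_filter, mem_pr, Nat.mem_primeFactors]
      constructor
      · rintro ⟨⟨h2, h3, h4⟩, h5⟩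
        refine ⟨⟨⟨h2.pos, ?_⟩, h2, hp p h2 h3, h5⟩, h3⟩
        have h6 := (tt_lt_iff hN h2 _).1 h5
        have h7 : (N : ℝ) ^ (97 / 100 : ℝ) ≤ (N : ℝ) ^ (1 : ℝ) :=
          Real.rpow_le_rpow_of_exponent_le hNr.le (by norm_num)
        rw [Real.rpow_one] at h7
        have h8 : (p : ℝ) ≤ N := by linarith
        exact_mod_cast h8
      · rintro ⟨⟨h2, h3, h4, h5⟩, h6⟩
        exact ⟨⟨h3, h6, hn⟩, h5⟩
    rw [e3]
    have e4 : ∑ q ∈ (pr N (1 / 4) (97 / 100)).filter (fun q => q ∣ n),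
        7 / 10 * (1 - tt N q / (97 / 100)) =
        ∑ q ∈ (pr N (1 / 4) (97 / 100)).filter (fun q => q ∣ n), cw N q := rfl
    linarith
  have h2 : ∑ p ∈ n.primeFactors, 7 / 10 * (1 - tt N p / (97 / 100)) =
      7 / 10 * (n.primeFactors.card : ℝ) - 7 / 10 / (97 / 100) * ∑ p ∈ n.primeFactors, tt N p := by
    rw [← Finset.mul_sum, Finset.sum_sub_distrib, Finset.sum_const, nsmul_eq_mul, ← Finset.sum_div]
    ring
  have h3 := sum_tt_le hN hn
  rw [h2] at h1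
  have h4 : (n.primeFactors.card : ℝ) < 4 := by
    have h5 : ∑ p ∈ n.primeFactors, tt N p ≤ 226 / 100 := h3.trans hsz
    nlinarith
  have h5 : n.primeFactors.card < 4 := by exact_mod_cast h4
  omega

/-- size of the values -/
lemma vvS_le (B Q S M : ℕ) (i : ℕ × ℕ × ℕ × ℕ) (hi : i ∈ Om M) (hM : 1 ≤ M) :
    vvS B Q S i ≤ (1 + 6 * B + B ^ 2) * (1 + 2 * Q) ^ 4 * (S + M) ^ 4 := by
  have h : ((vvS B Q S i : ℕ) : ℤ) ≤
      (((1 + 6 * B + B ^ 2) * (1 + 2 * Q) ^ 4 * (S + M) ^ 4 : ℕ) : ℤ) := by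
    rw [vvS_cast]
    simp only [Om, mem_product, mem_range] at hi
    obtain ⟨h1, h2, h3, h4⟩ := hi
    have hx : ((Q * (i.1 + i.2.1) : ℕ) : ℤ) ≤ (((1 + 2 * Q) * (S + M) : ℕ) : ℤ) := by
      have : Q * (i.1 + i.2.1) ≤ (1 + 2 * Q) * (S + M) := by
        have h5 : Q * (i.1 + i.2.1) ≤ Q * (2 * M) := Nat.mul_le_mul_left _ (by omega)
        nlinarith
      exact_mod_cast this
    have hy : ((1 + Q * (S + (i.2.2.1 + i.2.2.2)) : ℕ) : ℤ) ≤ (((1 + 2 * Q) * (S + M) : ℕ) : ℤ) := by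
      have : 1 + Q * (S + (i.2.2.1 + i.2.2.2)) ≤ (1 + 2 * Q) * (S + M) := by
        have h5 : Q * (S + (i.2.2.1 + i.2.2.2)) ≤ Q * (2 * (S + M)) :=
          Nat.mul_le_mul_left _ (by omega)
        nlinarith
      exact_mod_cast this
    have hx0 : (0 : ℤ) ≤ ((Q * (i.1 + i.2.1) : ℕ) : ℤ) := Int.natCast_nonneg _
    have hy0 : (0 : ℤ) ≤ ((1 + Q * (S + (i.2.2.1 + i.2.2.2)) : ℕ) : ℤ) := Int.natCast_nonneg _
    generalize ((Q * (i.1 + i.2.1) : ℕ) : ℤ) = x at *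
    generalize ((1 + Q * (S + (i.2.2.1 + i.2.2.2)) : ℕ) : ℤ) = y at *
    set R : ℤ := (((1 + 2 * Q) * (S + M) : ℕ) : ℤ) with hR
    unfold FF
    have hB : (0 : ℤ) ≤ B := Int.natCast_nonneg _
    have e1 : y ^ 4 ≤ R ^ 4 := pow_le_pow_left₀ hy0 hy 4
    have e2 : x ^ 4 ≤ R ^ 4 := pow_le_pow_left₀ hx0 hx 4
    have e3 : x ^ 2 * y ^ 2 ≤ R ^ 2 * R ^ 2 :=
      mul_le_mul (pow_le_pow_left₀ hx0 hx 2) (pow_le_pow_left₀ hy0 hy 2) (by positivity)
        (by positivity)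
    have e4 : (((1 + 6 * B + B ^ 2) * (1 + 2 * Q) ^ 4 * (S + M) ^ 4 : ℕ) : ℤ) =
        (1 + 6 * (B : ℤ) + (B : ℤ) ^ 2) * R ^ 4 := by
      rw [hR]
      push_cast
      ring
    rw [e4]
    have e5 : 6 * (B : ℤ) * (x ^ 2 * y ^ 2) ≤ 6 * (B : ℤ) * (R ^ 2 * R ^ 2) :=
      mul_le_mul_of_nonneg_left e3 (by positivity)
    have e6 : (B : ℤ) ^ 2 * x ^ 4 ≤ (B : ℤ) ^ 2 * R ^ 4 :=
      mul_le_mul_of_nonneg_left e2 (by positivity)
    nlinarith
  exact_mod_cast h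

open Classical in
/-- many values with at most three prime factors, all large -/
theorem manyS (hL : S_LEVS) (hM : S_MRS) (hP : S_PRD) (B Q0 : ℕ) (hB : 1 ≤ B) (hQ0 : 1 ≤ Q0)
    (σ : ℝ) (hσ1 : 1 ≤ σ) (hσ : σ < 9 / 8) :
    ∃ Q : ℕ, 1 ≤ Q ∧ Q0 ∣ Q ∧ ∃ c : ℝ, 0 < c ∧ ∃ M₀ : ℕ, ∀ M S : ℕ, M₀ ≤ M → (S : ℝ) ≤ (M : ℝ) ^ σ →
      c * (M : ℝ) ^ 4 / Real.log M ≤
        (((Om M).filter (fun i => (∀ p : ℕ, p.Prime → p ∣ vvS B Q S i → (M : ℝ) ^ (1 / 2 : ℝ) ≤ p) ∧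
          (vvS B Q S i).primeFactors.card ≤ 3)).card : ℝ) := by
  obtain ⟨A0, C0, hA0, hcore⟩ := core7
  set z : ℕ := max C0 5 with hz
  have hzC : C0 ≤ z := le_max_left _ _
  have hz5 : 5 ≤ z := le_max_right _ _
  set κ : ℝ := A0 * (50 / 49 * (Real.log (73 / 25) - 7 / 10 * Real.log (97 / 25))) with hκ
  have hκ0 : 0 < κ := mul_pos hA0 log_pos_constS
  obtain ⟨ε₁, hε₁, hε8, ηM, hηM, N0, hN02, hc⟩ := hcore z hzC (κ / 2) (by positivity)
  set Q : ℕ := Q0 * z.factorial with hQ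
  have hQ1 : 1 ≤ Q := Nat.mul_pos hQ0 (Nat.factorial_pos z)
  have hQz : ∀ p : ℕ, p.Prime → p ≤ z → p ∣ Q := fun p hp hpz =>
    ((hp.dvd_factorial).2 hpz).trans (Dvd.intro_left _ rfl)
  refine ⟨Q, hQ1, Dvd.intro _ rfl, ?_⟩
  obtain ⟨C, hC, hlev⟩ := hL B Q hB hQ1 (1 / 1000) (by norm_num)
  obtain ⟨N₁, h1⟩ := mrs_gg hM B Q hB hQ1 ε₁ ηM hε₁ hηM
  obtain ⟨c, hc0, hprd⟩ := prd_gg hP B Q hB
  set CC : ℝ := (((1 + 6 * B + B ^ 2) * (1 + 2 * Q) ^ 4 : ℕ) : ℝ) with hCC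
  have hCC1 : 1 ≤ CC := by
    rw [hCC]
    have : 1 ≤ (1 + 6 * B + B ^ 2) * (1 + 2 * Q) ^ 4 := Nat.one_le_iff_ne_zero.2 (by positivity)
    exact_mod_cast this
  -- eventual conditions
  have hev1 : ∀ᶠ M : ℕ in atTop, (Real.log M) ^ (2 : ℝ) ≤
      ε₁ * c * κ / (32 * C) * (M : ℝ) ^ (1 / 100 : ℝ) := by
    have h := (isLittleO_log_rpow_rpow_atTop (2 : ℝ) (show (0 : ℝ) < 1 / 100 by norm_num)).bound
      (show (0 : ℝ) < ε₁ * c * κ / (32 * C) by positivity)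
    have h' := tendsto_natCast_atTop_atTop.eventually h
    filter_upwards [h', eventually_ge_atTop 3] with M hM hM3
    have hl : 0 ≤ Real.log M := Real.log_natCast_nonneg M
    rw [Real.norm_of_nonneg (by positivity), Real.norm_of_nonneg (by positivity)] at hM
    exact hM
  have hev2 : ∀ᶠ M : ℕ in atTop, 16 * CC ≤ (M : ℝ) ^ (2 / 100 : ℝ) :=
    ((tendsto_rpow_atTop (by norm_num)).comp tendsto_natCast_atTop_atTop).eventually_ge_atTop (16 * CC)
  obtain ⟨M₁, hM₁⟩ := eventually_atTop.1 (hev1.and hev2)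
  refine ⟨ε₁ * c * κ / 8, by positivity, max (max M₁ (max N0 N₁)) 3, fun M S hMM hSM => ?_⟩
  have hMM1 : M₁ ≤ M := ((le_max_left _ _).trans (le_max_left _ _)).trans hMM
  have hMN0 : N0 ≤ M := (((le_max_left _ _).trans (le_max_right _ _)).trans (le_max_left _ _)).trans hMM
  have hMN1 : N₁ ≤ M := (((le_max_right _ _).trans (le_max_right _ _)).trans (le_max_left _ _)).trans hMM
  have hM3 : 3 ≤ M := (le_max_right _ _).trans hMM
  obtain ⟨hlog2, hCM⟩ := hM₁ M hMM1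
  have hMr : (3 : ℝ) ≤ M := by exact_mod_cast hM3
  have hM0 : (0 : ℝ) < M := by linarith
  set N : ℕ := M ^ 2 with hN
  have hMN : M ≤ N := by rw [hN]; nlinarith
  have hN2 : 2 ≤ N := by omega
  have hlogN : Real.log N = 2 * Real.log M := by
    rw [hN]; push_cast; rw [Real.log_pow]; norm_num
  have hlM : 1 < Real.log M := by
    rw [Real.lt_log_iff_exp_lt hM0]
    have := Real.exp_one_lt_d9
    linarith
  have hNpow : ∀ a : ℝ, (N : ℝ) ^ a = (M : ℝ) ^ (2 * a) := by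
    intro a
    rw [hN]; push_cast
    rw [← Real.rpow_natCast, ← Real.rpow_mul hM0.le]
    norm_num
  obtain ⟨hzN, hc'⟩ := hc N (hMN0.trans hMN)
  have hMer := h1 N (hMN1.trans hMN)
  have key := hc' _ (Om M) (vvS B Q S) (gg B Q) ((M : ℝ) ^ 4) (by positivity)
    (fun p hp _ => ⟨gg_nonneg B Q p hp, (gg_le_gd B Q p hp).trans (gd_le' B p hp)⟩)
    (fun a b ha hab hb => by
      rw [pr_sub N ε₁ (1 / 4) a b ha hb]
      exact hMer a b ha hab (by linarith))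
    (by
      have := (abs_le.1 (hMer (1 / 4) (97 / 100) (by linarith) (by norm_num) (by norm_num))).2
      have e : (97 / 100 / (1 / 4) : ℝ) = 97 / 25 := by norm_num
      rw [e] at this
      linarith)
  -- the main term
  have hV := hprd N z ε₁ (by omega) hz5
  have hmain : ε₁ * c * κ / 4 * (M : ℝ) ^ 4 / Real.log M ≤
      ε₁ * ((M : ℝ) ^ 4 * ∏ p ∈ P1 N z ε₁, (1 - gg B Q p)) * (κ - κ / 2) := by
    rw [hlogN] at hV
    calc ε₁ * c * κ / 4 * (M : ℝ) ^ 4 / Real.log M =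
        ε₁ * ((M : ℝ) ^ 4 * (c / (2 * Real.log M))) * (κ - κ / 2) := by
          field_simp
          ring
      _ ≤ _ := by
          have : 0 ≤ κ - κ / 2 := by linarith
          gcongr
  -- the error term
  have herr : Real.log N * ∑ q ∈ Lv' z ((N : ℝ) ^ (99 / 100 : ℝ)),
      Rr (Om M) (vvS B Q S) (gg B Q) ((M : ℝ) ^ 4) q ≤ ε₁ * c * κ / 8 * (M : ℝ) ^ 4 / Real.log M := by
    have hD1 : 1 ≤ (N : ℝ) ^ (99 / 100 : ℝ) :=
      Real.one_le_rpow (by exact_mod_cast (by omega : 1 ≤ N)) (by norm_num)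
    have h2 := (rem_leS B Q S z M ((N : ℝ) ^ (99 / 100 : ℝ))).trans
      (hlev S M ((N : ℝ) ^ (99 / 100 : ℝ)) (by omega) hD1)
    have e1 : ((N : ℝ) ^ (99 / 100 : ℝ)) ^ (1 / 1000 : ℝ) ≤ (M : ℝ) ^ (1 / 100 : ℝ) := by
      rw [hNpow, ← Real.rpow_mul hM0.le]
      exact Real.rpow_le_rpow_of_exponent_le (by linarith) (by norm_num)
    have e2 : (M : ℝ) ^ 3 ≤ (M : ℝ) ^ (398 / 100 : ℝ) := by
      rw [← Real.rpow_natCast]
      exact Real.rpow_le_rpow_of_exponent_le (by linarith) (by norm_num)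
    have e3 : (M : ℝ) ^ 2 * (N : ℝ) ^ (99 / 100 : ℝ) = (M : ℝ) ^ (398 / 100 : ℝ) := by
      rw [hNpow, ← Real.rpow_natCast, ← Real.rpow_add hM0]
      norm_num
    have e4 : C * ((N : ℝ) ^ (99 / 100 : ℝ)) ^ (1 / 1000 : ℝ) *
        ((M : ℝ) ^ 3 + (M : ℝ) ^ 2 * (N : ℝ) ^ (99 / 100 : ℝ)) ≤
        2 * C * (M : ℝ) ^ (399 / 100 : ℝ) := by
      calc _ ≤ C * (M : ℝ) ^ (1 / 100 : ℝ) * ((M : ℝ) ^ (398 / 100 : ℝ) + (M : ℝ) ^ (398 / 100 : ℝ)) := by
            rw [e3]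
            gcongr
        _ = 2 * C * ((M : ℝ) ^ (1 / 100 : ℝ) * (M : ℝ) ^ (398 / 100 : ℝ)) := by ring
        _ = _ := by
            rw [← Real.rpow_add hM0]
            norm_num
    have e5 : (M : ℝ) ^ (4 : ℕ) = (M : ℝ) ^ (1 / 100 : ℝ) * (M : ℝ) ^ (399 / 100 : ℝ) := by
      rw [← Real.rpow_add hM0, ← Real.rpow_natCast]
      norm_num
    rw [Real.rpow_two] at hlog2
    calc Real.log N * ∑ q ∈ Lv' z ((N : ℝ) ^ (99 / 100 : ℝ)),
          Rr (Om M) (vvS B Q S) (gg B Q) ((M : ℝ) ^ 4) q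
        ≤ 2 * Real.log M * (2 * C * (M : ℝ) ^ (399 / 100 : ℝ)) := by
          rw [hlogN]
          exact mul_le_mul_of_nonneg_left (h2.trans e4) (by positivity)
      _ = 4 * C * (M : ℝ) ^ (399 / 100 : ℝ) * (Real.log M) ^ 2 / Real.log M := by
          field_simp
          ring
      _ ≤ 4 * C * (M : ℝ) ^ (399 / 100 : ℝ) *
          (ε₁ * c * κ / (32 * C) * (M : ℝ) ^ (1 / 100 : ℝ)) / Real.log M := by gcongr
      _ = ε₁ * c * κ / 8 * (M : ℝ) ^ 4 / Real.log M := by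
          rw [e5]
          field_simp
          ring
  have hlow : ε₁ * c * κ / 8 * (M : ℝ) ^ 4 / Real.log M ≤
      ∑ i ∈ (Om M).filter (fun i => ∀ p ∈ P1 N z ε₁, ¬ p ∣ vvS B Q S i), II N ε₁ (vvS B Q S i) *
      (1 - ∑ q ∈ pr N (1 / 4) (97 / 100), cw N q * (if q ∣ vvS B Q S i then 1 else 0)) := by
    refine le_trans ?_ key
    have : ε₁ * c * κ / 4 * (M : ℝ) ^ 4 / Real.log M =
        ε₁ * c * κ / 8 * (M : ℝ) ^ 4 / Real.log M + ε₁ * c * κ / 8 * (M : ℝ) ^ 4 / Real.log M := by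
      ring
    linarith
  refine hlow.trans ?_
  -- the count
  rw [Finset.card_eq_sum_ones]
  push_cast
  rw [Finset.sum_filter, Finset.sum_filter]
  apply Finset.sum_le_sum
  intro i hi
  by_cases hg : (∀ p : ℕ, p.Prime → p ∣ vvS B Q S i → (M : ℝ) ^ (1 / 2 : ℝ) ≤ p) ∧
      (vvS B Q S i).primeFactors.card ≤ 3
  · rw [if_pos hg]
    split_ifs
    · have h3 : 0 ≤ ∑ q ∈ pr N (1 / 4) (97 / 100), cw N q * (if q ∣ vvS B Q S i then (1 : ℝ) else 0) := by
        apply Finset.sum_nonneg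
        intro q hq
        have := cw_nonneg q hq
        split_ifs <;> simp [this]
      unfold II
      split_ifs
      · linarith
      · simp
    · norm_num
  · rw [if_neg hg]
    split_ifs with h3
    · -- the term is not positive
      by_contra hpos
      rw [not_le] at hpos
      apply hg
      have hII : ∀ p ∈ pr N ε₁ (1 / 4), ¬ p ∣ vvS B Q S i := by
        by_contra hcon
        unfold II at hpos
        rw [if_neg hcon, zero_mul] at hpos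
        exact lt_irrefl _ hpos
      have hw : 0 < 1 - ∑ q ∈ pr N (1 / 4) (97 / 100), cw N q * (if q ∣ vvS B Q S i then (1 : ℝ) else 0) := by
        unfold II at hpos
        rw [if_pos hII, one_mul] at hpos
        exact hpos
      have hpr : ∀ p : ℕ, p.Prime → p ∣ vvS B Q S i → 1 / 4 ≤ tt N p := by
        intro p hp hpv
        by_contra hlt
        rw [not_le] at hlt
        have hlt' := (tt_lt_iff hN2 hp _).1 hlt
        have hpN : p ≤ N := by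
          have h7 : (N : ℝ) ^ (1 / 4 : ℝ) ≤ (N : ℝ) ^ (1 : ℝ) :=
            Real.rpow_le_rpow_of_exponent_le (by exact_mod_cast (by omega : 1 ≤ N)) (by norm_num)
          rw [Real.rpow_one] at h7
          have h8 : (p : ℝ) ≤ N := by linarith
          exact_mod_cast h8
        rcases le_or_gt p z with h4 | h4
        · exact vvS_not_dvd hp (hQz p hp h4) i hpv
        · rcases lt_or_ge (tt N p) ε₁ with h5 | h5
          · exact h3 p (mem_P1.2 ⟨⟨h4, hpN⟩, hp, (tt_lt_iff hN2 hp _).1 h5⟩) hpv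
          · exact hII p (mem_pr.2 ⟨⟨hp.pos, hpN⟩, hp, h5, hlt⟩) hpv
      refine ⟨fun p hp hpv => ?_, ?_⟩
      · have h4 := (le_tt_iff hN2 hp _).1 (hpr p hp hpv)
        rw [hNpow] at h4
        have e : (2 * (1 / 4) : ℝ) = 1 / 2 := by norm_num
        rwa [e] at h4
      · apply omega_leS hN2 (vvS_ne_zero B Q S i) hpr _ hw
        have h4 := vvS_le B Q S M i hi (by omega)
        have h5 : ((vvS B Q S i : ℕ) : ℝ) ≤ CC * ((S : ℝ) + M) ^ 4 := by
          rw [hCC]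
          exact_mod_cast h4
        have h51 : (M : ℝ) ≤ (M : ℝ) ^ σ := by
          calc (M : ℝ) = (M : ℝ) ^ (1 : ℝ) := (Real.rpow_one _).symm
            _ ≤ _ := Real.rpow_le_rpow_of_exponent_le (by linarith) hσ1
        have h52 : ((S : ℝ) + M) ^ 4 ≤ 16 * (M : ℝ) ^ (9 / 2 : ℝ) := by
          have h53 : (S : ℝ) + M ≤ 2 * (M : ℝ) ^ σ := by linarith
          calc ((S : ℝ) + M) ^ 4 ≤ (2 * (M : ℝ) ^ σ) ^ 4 := by gcongr
            _ = 16 * (M : ℝ) ^ (σ * (4 : ℕ)) := by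
              rw [mul_pow, ← Real.rpow_natCast ((M : ℝ) ^ σ), ← Real.rpow_mul hM0.le]
              norm_num
            _ ≤ 16 * (M : ℝ) ^ (9 / 2 : ℝ) := by
              apply mul_le_mul_of_nonneg_left _ (by norm_num)
              apply Real.rpow_le_rpow_of_exponent_le (by linarith)
              push_cast
              linarith
        have h6 : ((vvS B Q S i : ℕ) : ℝ) ≤ (M : ℝ) ^ (452 / 100 : ℝ) := by
          calc ((vvS B Q S i : ℕ) : ℝ) ≤ CC * (16 * (M : ℝ) ^ (9 / 2 : ℝ)) :=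
                h5.trans (mul_le_mul_of_nonneg_left h52 (by linarith))
            _ = 16 * CC * (M : ℝ) ^ (9 / 2 : ℝ) := by ring
            _ ≤ (M : ℝ) ^ (2 / 100 : ℝ) * (M : ℝ) ^ (9 / 2 : ℝ) := by gcongr
            _ = (M : ℝ) ^ (452 / 100 : ℝ) := by
              rw [← Real.rpow_add hM0]
              norm_num
        have hvpos : (0 : ℝ) < (vvS B Q S i : ℕ) := by
          exact_mod_cast Nat.pos_of_ne_zero (vvS_ne_zero B Q S i)
        have h7 := Real.log_le_log hvpos h6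
        rw [Real.log_rpow hM0] at h7
        rw [hlogN, div_le_iff₀ (by positivity)]
        linarith
    · exact le_rfl

end Pool.Agent.Y675.TS
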