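import Pool.Agent.Y675.TS.Fin1
import Pool.Agent.Y675.TC.Fin4

/-!
Project TS (helper675): many squarefree values of the form in shifted boxes with at most three prime
factors.
-/

set_option autoImplicit false

namespace Pool.Agent.Y675.TS

open Finset Pool.Agent.W23.DC Pool.Agent.Y660.RP Pool.Agent.Y675.TC Filter

/-- the shift of a pair -/
def sh (S : ℕ) (j : ℕ × ℕ) : ℕ × ℕ := (j.1, S + j.2)

lemma sh_inj (S : ℕ) : Function.Injective (sh S) := by
  intro i j h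
  have h1 : (sh S i).1 = (sh S j).1 := congrArg Prod.fst h
  have h2 : (sh S i).2 = (sh S j).2 := congrArg Prod.snd h
  unfold sh at h1 h2
  simp only at h1 h2
  exact Prod.ext h1 (by omega)

lemma vvS_eq (B Q S : ℕ) (i : ℕ × ℕ × ℕ × ℕ) : vvS B Q S i = wv B Q (sh S (pp i)) := rfl

open Classical in
theorem many2S (hL : S_LEVS) (hM : S_MRS) (hP : S_PRD) (hN : S_NSQ) (B Q0 : ℕ) (hB : 1 ≤ B)
    (hQ0 : 1 ≤ Q0) (σ : ℝ) (hσ1 : 1 ≤ σ) (hσ : σ < 9 / 8) :
    ∃ Q : ℕ, 1 ≤ Q ∧ Q0 ∣ Q ∧ ∃ c : ℝ, 0 < c ∧ ∃ M₀ : ℕ, ∀ M S : ℕ, M₀ ≤ M → (S : ℝ) ≤ (M : ℝ) ^ σ →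
      ∃ V : Finset ℕ, c * (M : ℝ) ^ 2 / Real.log M ≤ (V.card : ℝ) ∧ ∀ v ∈ V,
        Squarefree v ∧ v.primeFactors.card ≤ 3 ∧
        (∀ p : ℕ, p.Prime → p ∣ v → (M : ℝ) ^ (1 / 2 : ℝ) ≤ p) ∧
        ∃ r s : ℕ, 1 ≤ r ∧ r ≤ 2 * Q * M ∧ 1 + Q * S ≤ s ∧ s ≤ 1 + Q * S + 2 * Q * M ∧
          Q ∣ r ∧ s ≡ 1 [MOD Q] ∧ (v : ℤ) = FF B r s := by
  obtain ⟨Q, hQ1, hQ0Q, c, hc, M₁, h1⟩ := manyS hL hM hP B Q0 hB hQ0 σ hσ1 hσ
  refine ⟨Q, hQ1, hQ0Q, c / 128, by positivity, ?_⟩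
  obtain ⟨δ, hδd⟩ : ∃ δ : ℝ, δ = 9 / 8 - σ := ⟨_, rfl⟩
  have hδ0 : 0 < δ := by linarith
  have hδ1 : δ ≤ 1 / 8 := by linarith
  obtain ⟨C, hC, hnsq⟩ := hN B hB (δ / 2) (by linarith)
  set C' : ℝ := C * (2 * (1 + 2 * (Q : ℝ))) ^ (2 + δ / 2 : ℝ) with hC'
  have hC'0 : 0 < C' := by positivity
  have hev : ∀ᶠ M : ℕ in atTop, Real.log M ≤ c / (2 * (2 + C')) * (M : ℝ) ^ δ := by
    have h := (isLittleO_log_rpow_atTop hδ0).bound
      (show (0 : ℝ) < c / (2 * (2 + C')) by positivity)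
    have h' := tendsto_natCast_atTop_atTop.eventually h
    filter_upwards [h'] with M hM
    have hl : 0 ≤ Real.log M := Real.log_natCast_nonneg M
    rw [Real.norm_of_nonneg hl, Real.norm_of_nonneg (by positivity)] at hM
    exact hM
  obtain ⟨M₂, hM₂⟩ := eventually_atTop.1 hev
  refine ⟨max (max M₁ M₂) 3, fun M S hMM hSM => ?_⟩
  have hMM1 : M₁ ≤ M := ((le_max_left _ _).trans (le_max_left _ _)).trans hMM
  have hMM2 : M₂ ≤ M := ((le_max_right _ _).trans (le_max_left _ _)).trans hMM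
  have hM3 : 3 ≤ M := (le_max_right _ _).trans hMM
  have hMr : (3 : ℝ) ≤ M := by exact_mod_cast hM3
  have hM0 : (0 : ℝ) < M := by linarith
  have hlM : 1 < Real.log M := by
    rw [Real.lt_log_iff_exp_lt hM0]
    have := Real.exp_one_lt_d9
    linarith
  set G := (Om M).filter (fun i => (∀ p : ℕ, p.Prime → p ∣ vvS B Q S i → (M : ℝ) ^ (1 / 2 : ℝ) ≤ p) ∧
          (vvS B Q S i).primeFactors.card ≤ 3) with hG
  have hGcard := h1 M S hMM1 hSM
  rw [← hG] at hGcard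
  set Pm := G.image pp with hPm
  -- the pairs
  have hPcard : (G.card : ℝ) ≤ (M : ℝ) ^ 2 * (Pm.card : ℝ) := by
    have h2 := Finset.card_le_mul_card_image (s := G) (f := pp) (M ^ 2)
      (fun j _ => fiber_pp M j G (filter_subset _ _))
    exact_mod_cast h2
  have hP1 : c * (M : ℝ) ^ 2 / Real.log M ≤ (Pm.card : ℝ) := by
    have h2 : c * (M : ℝ) ^ 4 / Real.log M ≤ (M : ℝ) ^ 2 * (Pm.card : ℝ) := hGcard.trans hPcard
    have h3 : c * (M : ℝ) ^ 4 / Real.log M = (M : ℝ) ^ 2 * (c * (M : ℝ) ^ 2 / Real.log M) := by ring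
    rw [h3] at h2
    exact le_of_mul_le_mul_left h2 (by positivity)
  have hPmem : ∀ j ∈ Pm, j.1 < 2 * M ∧ j.2 < 2 * M ∧
      (∀ p : ℕ, p.Prime → p ∣ wv B Q (sh S j) → (M : ℝ) ^ (1 / 2 : ℝ) ≤ p) ∧
      (wv B Q (sh S j)).primeFactors.card ≤ 3 := by
    intro j hj
    rw [hPm, mem_image] at hj
    obtain ⟨i, hi, rfl⟩ := hj
    rw [hG, mem_filter] at hi
    have h3 := hi.1
    simp only [Om, mem_product, mem_range] at h3
    refine ⟨by unfold pp; simp only; omega, by unfold pp; simp only; omega, ?_, ?_⟩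
    · rw [← vvS_eq]; exact hi.2.1
    · rw [← vvS_eq]; exact hi.2.2
  -- the bad pairs
  set P0 := Pm.filter (fun j => 1 ≤ j.1 ∧ Squarefree (wv B Q (sh S j))) with hP0
  set B1 := Pm.filter (fun j => j.1 = 0) with hB1
  set B2 := Pm.filter (fun j => 1 ≤ j.1 ∧ ¬ Squarefree (wv B Q (sh S j))) with hB2
  have hsplit : Pm.card ≤ P0.card + B1.card + B2.card := by
    have : Pm ⊆ (P0 ∪ B1) ∪ B2 := by
      intro j hj
      simp only [mem_union, hP0, hB1, hB2, mem_filter]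
      rcases Nat.eq_zero_or_pos j.1 with h | h
      · exact Or.inl (Or.inr ⟨hj, h⟩)
      · by_cases h' : Squarefree (wv B Q (sh S j))
        · exact Or.inl (Or.inl ⟨hj, h, h'⟩)
        · exact Or.inr ⟨hj, h, h'⟩
    calc Pm.card ≤ ((P0 ∪ B1) ∪ B2).card := card_le_card this
      _ ≤ (P0 ∪ B1).card + B2.card := card_union_le _ _
      _ ≤ P0.card + B1.card + B2.card := by
        have := card_union_le P0 B1
        omega
  have hB1card : B1.card ≤ 2 * M := by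
    have : B1.card ≤ (range (2 * M)).card := by
      apply Finset.card_le_card_of_injOn (fun j => j.2)
      · intro j hj
        have hj' := mem_filter.1 (mem_coe.1 hj)
        exact mem_coe.2 (mem_range.2 (hPmem j hj'.1).2.1)
      · intro j hj j' hj' h
        have h2 := (mem_filter.1 (mem_coe.1 hj)).2
        have h3 := (mem_filter.1 (mem_coe.1 hj')).2
        exact Prod.ext (by rw [h2, h3]) h
    rwa [card_range] at this
  set Y : ℕ := (1 + 2 * Q) * (S + M) with hY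
  have hMY : M ≤ Y := by
    rw [hY]
    nlinarith [Nat.zero_le (Q * (S + M)), Nat.zero_le S]
  have hY1 : 1 ≤ Y := by omega
  have hB2card : (B2.card : ℝ) ≤ C' * (M : ℝ) ^ (2 - δ) := by
    have hz1 : (1 : ℝ) ≤ (M : ℝ) ^ (1 / 2 : ℝ) := Real.one_le_rpow (by linarith) (by norm_num)
    have hzY : (M : ℝ) ^ (1 / 2 : ℝ) ≤ Y := by
      calc (M : ℝ) ^ (1 / 2 : ℝ) ≤ (M : ℝ) ^ (1 : ℝ) :=
            Real.rpow_le_rpow_of_exponent_le (by linarith) (by norm_num)
        _ = M := Real.rpow_one _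
        _ ≤ Y := by exact_mod_cast hMY
    have h2 := hnsq Y ((M : ℝ) ^ (1 / 2 : ℝ)) hY1 hz1 hzY
    have h3 : B2.card ≤ ((((Icc 1 Y) ×ˢ (Icc 1 Y)).filter (fun i : ℕ × ℕ =>
        (∀ p : ℕ, p.Prime → (p : ℤ) ∣ FF B i.1 i.2 → (M : ℝ) ^ (1 / 2 : ℝ) ≤ p) ∧
          ¬ Squarefree (FF B i.1 i.2))).card) := by
      apply Finset.card_le_card_of_injOn (fun j => rs Q (sh S j))
      · intro j hj
        have hj' := mem_filter.1 (mem_coe.1 hj)
        obtain ⟨g1, g2, g3, g4⟩ := hPmem j hj'.1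
        rw [mem_coe, mem_filter]
        refine ⟨?_, ?_, ?_⟩
        · rw [mem_product, mem_Icc, mem_Icc]
          unfold rs sh
          refine ⟨⟨Nat.mul_pos hQ1 hj'.2.1, ?_⟩, ⟨by simp only; omega, ?_⟩⟩
          · simp only
            rw [hY]
            have h5 : Q * j.1 ≤ Q * (2 * (S + M)) := Nat.mul_le_mul_left _ (by omega)
            nlinarith [Nat.zero_le S]
          · simp only
            rw [hY]
            have h5 : Q * (S + j.2) ≤ Q * (2 * (S + M)) := Nat.mul_le_mul_left _ (by omega)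
            have h6 : 1 ≤ S + M := by omega
            nlinarith
        · intro p hp hpd
          apply g3 p hp
          have : (p : ℤ) ∣ ((wv B Q (sh S j) : ℕ) : ℤ) := by
            rw [wv_cast]
            exact hpd
          exact_mod_cast this
        · intro hsq
          apply hj'.2.2
          unfold wv
          exact Int.squarefree_natAbs.2 hsq
      · intro j _ j' _ h
        exact sh_inj S (rs_inj hQ1 h)
    have h4 : (B2.card : ℝ) ≤ C * (Y : ℝ) ^ (2 + δ / 2 : ℝ) * ((M : ℝ) ^ (1 / 2 : ℝ)) ^ (-(1 / 2 : ℝ)) :=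
      le_trans (by exact_mod_cast h3) h2
    have h5 : (Y : ℝ) ≤ 2 * (1 + 2 * (Q : ℝ)) * (M : ℝ) ^ σ := by
      have h51 : (M : ℝ) ≤ (M : ℝ) ^ σ := by
        calc (M : ℝ) = (M : ℝ) ^ (1 : ℝ) := (Real.rpow_one _).symm
          _ ≤ _ := Real.rpow_le_rpow_of_exponent_le (by linarith) hσ1
      have e1 : (Y : ℝ) = (1 + 2 * (Q : ℝ)) * (S + M) := by rw [hY]; push_cast; ring
      rw [e1]
      have h52 : (S : ℝ) + M ≤ 2 * (M : ℝ) ^ σ := by linarith
      calc (1 + 2 * (Q : ℝ)) * (S + M) ≤ (1 + 2 * (Q : ℝ)) * (2 * (M : ℝ) ^ σ) := by gcongr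
        _ = _ := by ring
    have h6 : (Y : ℝ) ^ (2 + δ / 2 : ℝ) ≤
        (2 * (1 + 2 * (Q : ℝ))) ^ (2 + δ / 2 : ℝ) * (M : ℝ) ^ (9 / 4 - δ : ℝ) := by
      calc (Y : ℝ) ^ (2 + δ / 2 : ℝ) ≤ (2 * (1 + 2 * (Q : ℝ)) * (M : ℝ) ^ σ) ^ (2 + δ / 2 : ℝ) :=
            Real.rpow_le_rpow (Nat.cast_nonneg _) h5 (by linarith)
        _ = (2 * (1 + 2 * (Q : ℝ))) ^ (2 + δ / 2 : ℝ) * (M : ℝ) ^ (σ * (2 + δ / 2) : ℝ) := by
            rw [Real.mul_rpow (by positivity) (by positivity), ← Real.rpow_mul hM0.le]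
        _ ≤ _ := by
            apply mul_le_mul_of_nonneg_left _ (by positivity)
            apply Real.rpow_le_rpow_of_exponent_le (by linarith)
            have hσd : σ = 9 / 8 - δ := by linarith
            rw [hσd]
            nlinarith
    calc (B2.card : ℝ) ≤ C * (Y : ℝ) ^ (2 + δ / 2 : ℝ) * ((M : ℝ) ^ (1 / 2 : ℝ)) ^ (-(1 / 2 : ℝ)) := h4
      _ ≤ C * ((2 * (1 + 2 * (Q : ℝ))) ^ (2 + δ / 2 : ℝ) * (M : ℝ) ^ (9 / 4 - δ : ℝ)) *
          ((M : ℝ) ^ (1 / 2 : ℝ)) ^ (-(1 / 2 : ℝ)) := by gcongr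
      _ = C' * ((M : ℝ) ^ (9 / 4 - δ : ℝ) * (M : ℝ) ^ (1 / 2 * -(1 / 2) : ℝ)) := by
          rw [hC', ← Real.rpow_mul hM0.le]
          ring
      _ = C' * (M : ℝ) ^ (2 - δ) := by
          rw [← Real.rpow_add hM0]
          congr 2
          ring
  have hP0card : c / 2 * (M : ℝ) ^ 2 / Real.log M ≤ (P0.card : ℝ) := by
    have h2 : (Pm.card : ℝ) ≤ P0.card + B1.card + B2.card := by exact_mod_cast hsplit
    have h3 : (B1.card : ℝ) ≤ 2 * M := by exact_mod_cast hB1card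
    have h4 : (M : ℝ) ≤ (M : ℝ) ^ (2 - δ) := by
      calc (M : ℝ) = (M : ℝ) ^ (1 : ℝ) := (Real.rpow_one _).symm
        _ ≤ _ := Real.rpow_le_rpow_of_exponent_le (by linarith) (by linarith)
    have h5 := hM₂ M hMM2
    have h6 : (2 + C') * (M : ℝ) ^ (2 - δ) ≤ c / 2 * (M : ℝ) ^ 2 / Real.log M := by
      rw [le_div_iff₀ (by linarith)]
      have e3 : (M : ℝ) ^ (2 : ℕ) = (M : ℝ) ^ (2 - δ) * (M : ℝ) ^ δ := by
        rw [← Real.rpow_add hM0, ← Real.rpow_natCast]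
        congr 1
        push_cast
        ring
      calc (2 + C') * (M : ℝ) ^ (2 - δ) * Real.log M ≤
          (2 + C') * (M : ℝ) ^ (2 - δ) * (c / (2 * (2 + C')) * (M : ℝ) ^ δ) := by
            gcongr
        _ = c / 2 * ((M : ℝ) ^ (2 - δ) * (M : ℝ) ^ δ) := by
            field_simp
        _ = _ := by rw [e3]
    have h7 : c * (M : ℝ) ^ 2 / Real.log M = c / 2 * (M : ℝ) ^ 2 / Real.log M +
        c / 2 * (M : ℝ) ^ 2 / Real.log M := by ring
    linarith
  -- the values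
  refine ⟨P0.image (fun j => wv B Q (sh S j)), ?_, ?_⟩
  · have hfib : ∀ v ∈ P0.image (fun j => wv B Q (sh S j)),
        (P0.filter (fun j => wv B Q (sh S j) = v)).card ≤ 64 := by
      intro v hv
      rw [mem_image] at hv
      obtain ⟨j0, hj0, hj0v⟩ := hv
      have hj0' := mem_filter.1 hj0
      have hsq : Squarefree v := by rw [← hj0v]; exact hj0'.2.2
      have hom : v.primeFactors.card ≤ 3 := by
        rw [← hj0v]
        exact (hPmem j0 hj0'.1).2.2.2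
      have h2 := t_MUL B (v : ℤ) hB (by
          rw [← Int.squarefree_natAbs, Int.natAbs_natCast]
          exact hsq) ((P0.filter (fun j => wv B Q (sh S j) = v)).image (fun j => rs Q (sh S j))) (by
        intro i hi
        rw [mem_image] at hi
        obtain ⟨j, hj, rfl⟩ := hi
        rw [mem_filter] at hj
        have hj' := mem_filter.1 hj.1
        refine ⟨Nat.mul_pos hQ1 hj'.2.1, by unfold rs; simp only; omega, ?_⟩
        rw [← hj.2, wv_cast]
        rfl)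
      rw [Finset.card_image_of_injective _ (fun a b hab => sh_inj S (rs_inj hQ1 hab)),
        Int.natAbs_natCast] at h2
      refine h2.trans ?_
      calc 4 ^ v.primeFactors.card ≤ 4 ^ 3 := Nat.pow_le_pow_right (by norm_num) hom
        _ = 64 := by norm_num
    have h2 := Finset.card_le_mul_card_image (s := P0) (f := fun j => wv B Q (sh S j)) 64 hfib
    have h3 : (P0.card : ℝ) ≤ 64 * ((P0.image (fun j => wv B Q (sh S j))).card : ℝ) := by
      exact_mod_cast h2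
    have h4 : c / 128 * (M : ℝ) ^ 2 / Real.log M = c / 2 * (M : ℝ) ^ 2 / Real.log M / 64 := by ring
    rw [h4]
    linarith
  · intro v hv
    rw [mem_image] at hv
    obtain ⟨j, hj, rfl⟩ := hv
    have hj' := mem_filter.1 hj
    obtain ⟨g1, g2, g3, g4⟩ := hPmem j hj'.1
    refine ⟨hj'.2.2, g4, g3, Q * j.1, 1 + Q * (S + j.2), Nat.mul_pos hQ1 hj'.2.1, ?_, ?_, ?_,
      Dvd.intro _ rfl, ?_, wv_cast B Q (sh S j)⟩
    · calc Q * j.1 ≤ Q * (2 * M) := Nat.mul_le_mul_left _ (by omega)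
        _ = 2 * Q * M := by ring
    · have : Q * S ≤ Q * (S + j.2) := Nat.mul_le_mul_left _ (by omega)
      omega
    · have h5 : Q * j.2 ≤ Q * (2 * M) := Nat.mul_le_mul_left _ (by omega)
      have h6 : Q * (S + j.2) = Q * S + Q * j.2 := by ring
      have h7 : Q * (2 * M) = 2 * Q * M := by ring
      omega
    · have h2 : Q * (S + j.2) ≡ 0 [MOD Q] := (Nat.modEq_zero_iff_dvd).2 (Dvd.intro _ rfl)
      simpa using (Nat.ModEq.refl 1).add h2

end Pool.Agent.Y675.TS
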