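import Pool.Agent.Y675.TS.Fin2

/-!
Project TS (helper675): congruent numbers with few prime factors in residue classes and short
intervals.
-/

set_option autoImplicit false

namespace Pool.Agent.Y675.TS

open Finset Pool.Agent.Y675.TC Filter

/-- the fourth powers -/
lemma four_le {x h r s B : ℝ} (hx : 0 ≤ x) (hh : 0 ≤ h) (hhx : h ≤ x) (hr0 : 0 ≤ r) (hr : r ≤ h)
    (hs0 : 0 ≤ s) (hs : s ≤ x + h) (hB : 0 ≤ B) :
    s ^ 4 + 6 * B * r ^ 2 * s ^ 2 + B ^ 2 * r ^ 4 ≤ x ^ 4 + (15 + 24 * B + B ^ 2) * h * x ^ 3 := by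
  have h1 : s ^ 4 ≤ x ^ 4 + 15 * h * x ^ 3 := by
    calc s ^ 4 ≤ (x + h) ^ 4 := pow_le_pow_left₀ hs0 hs 4
      _ = x ^ 4 + h * (4 * x ^ 3 + 6 * x ^ 2 * h + 4 * x * h ^ 2 + h ^ 3) := by ring
      _ ≤ x ^ 4 + h * (4 * x ^ 3 + 6 * x ^ 2 * x + 4 * x * x ^ 2 + x ^ 3) := by gcongr
      _ = _ := by ring
  have h2 : r ^ 2 * s ^ 2 ≤ 4 * (h * x ^ 3) := by
    calc r ^ 2 * s ^ 2 ≤ h ^ 2 * (x + x) ^ 2 := by
          have : s ≤ x + x := by linarith
          gcongr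
      _ = 4 * (h * (x ^ 2 * h)) := by ring
      _ ≤ 4 * (h * (x ^ 2 * x)) := by gcongr
      _ = _ := by ring
  have h3 : r ^ 4 ≤ h * x ^ 3 := by
    calc r ^ 4 ≤ h ^ 4 := pow_le_pow_left₀ hr0 hr 4
      _ = h * h ^ 3 := by ring
      _ ≤ h * x ^ 3 := by gcongr
  have h4 : 6 * B * r ^ 2 * s ^ 2 ≤ 24 * B * (h * x ^ 3) := by
    have := mul_le_mul_of_nonneg_left h2 (show 0 ≤ 6 * B by positivity)
    linarith
  have h5 : B ^ 2 * r ^ 4 ≤ B ^ 2 * (h * x ^ 3) := mul_le_mul_of_nonneg_left h3 (by positivity)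
  linarith

/-- the exponent `σ` -/
lemma ex_sigma {a : ℝ} (ha : 2 / 9 < a) (ha1 : a ≤ 1 / 4) :
    ∃ σ : ℝ, 1 ≤ σ ∧ σ < 9 / 8 ∧ 1 / 4 < σ * a := by
  refine ⟨(1 / (4 * a) + 9 / 8) / 2, ?_, ?_, ?_⟩
  · have h1 : 1 ≤ 1 / (4 * a) := by
      rw [le_div_iff₀ (by linarith)]
      linarith
    linarith
  · have h1 : 1 / (4 * a) < 9 / 8 := by
      rw [div_lt_iff₀ (by linarith)]
      linarith
    linarith
  · have h1 : 1 / (4 * a) * a = 1 / 4 := by
      have : a ≠ 0 := by linarith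
      field_simp
    have h2 : (1 / (4 * a) + 9 / 8) / 2 * a = (1 / (4 * a) * a + 9 / 8 * a) / 2 := by ring
    rw [h2, h1]
    linarith

/-- the main theorem in short intervals -/
theorem main (hL : S_LEVS) (hM : S_MRS) (hP : S_PRD) (hN : S_NSQ) (B m : ℕ) (hB : Squarefree B)
    (hm : 1 ≤ m) (θ : ℝ) (hθ : 35 / 36 < θ) (hθ1 : θ ≤ 1) : ∃ c X₀ : ℝ, 0 < c ∧ ∀ X : ℝ, X₀ ≤ X →
      c * X ^ (2 * θ - 3 / 2) / Real.log X ≤ (({d : ℕ | X ≤ d ∧ (d : ℝ) ≤ X + X ^ θ ∧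
        d ≡ B [MOD m] ∧ B ∣ d ∧ Squarefree d ∧
        Cong d ∧ (d / B).primeFactors.card ≤ 3 ∧ (d / B).Coprime (2 * B * m) ∧
        ∀ p : ℕ, p.Prime → p ∣ d / B → X ^ (1 / 10 : ℝ) ≤ p ∧ (p % 8 = 1 ∨ p % 8 = 7) ∧
          IsSquare (((-(B : ℤ) : ℤ)) : ZMod p)}.ncard : ℕ) : ℝ) := by
  classical
  have hB1 : 1 ≤ B := Nat.pos_of_ne_zero hB.ne_zero
  have hBr : (1 : ℝ) ≤ B := by exact_mod_cast hB1
  obtain ⟨a, had⟩ : ∃ a : ℝ, a = θ - 3 / 4 := ⟨_, rfl⟩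
  have ha : 2 / 9 < a := by linarith
  have ha1 : a ≤ 1 / 4 := by linarith
  obtain ⟨σ, hσ1, hσ, hσa⟩ := ex_sigma ha ha1
  obtain ⟨Q, hQ1, hQ0, c, hc, M₀, h⟩ := many2S hL hM hP hN B (2 * B * m) hB1
    (Nat.mul_pos (Nat.mul_pos two_pos hB1) hm) σ hσ1 hσ
  have hQr : (1 : ℝ) ≤ Q := by exact_mod_cast hQ1
  obtain ⟨E, hE⟩ : ∃ E : ℝ, E = 15 + 24 * (B : ℝ) + (B : ℝ) ^ 2 := ⟨_, rfl⟩
  have hE1 : 1 ≤ E := by rw [hE]; nlinarith [sq_nonneg (B : ℝ)]
  obtain ⟨κ, hκ⟩ : ∃ κ : ℝ, κ = 1 / (3 * Q * (B * E)) := ⟨_, rfl⟩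
  have hκ0 : 0 < κ := by rw [hκ]; positivity
  have hκE : 3 * Q * κ = 1 / (B * E) := by
    rw [hκ]
    have : (Q : ℝ) ≠ 0 := by positivity
    have : (B : ℝ) ≠ 0 := by positivity
    have : E ≠ 0 := by positivity
    field_simp
  have hκ1 : κ ≤ 1 := by
    rw [hκ, div_le_one (by positivity)]
    have h1 : 1 ≤ (B : ℝ) * E := by nlinarith
    nlinarith
  -- eventual conditions
  have ev1 : ∀ᶠ X : ℝ in atTop, (M₀ : ℝ) + 4 ≤ κ * X ^ a :=
    ((tendsto_rpow_atTop (by linarith : 0 < a)).const_mul_atTop hκ0).eventually_ge_atTop _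
  have ev2 : ∀ᶠ X : ℝ in atTop, 2 ≤ (κ / 2) ^ σ * X ^ (σ * a - 1 / 4) :=
    ((tendsto_rpow_atTop (by linarith : 0 < σ * a - 1 / 4)).const_mul_atTop
      (by positivity : 0 < (κ / 2) ^ σ)).eventually_ge_atTop _
  have ev3 : ∀ᶠ X : ℝ in atTop, 1 ≤ (κ / 2) ^ (1 / 2 : ℝ) * X ^ (a / 2 - 1 / 10) :=
    ((tendsto_rpow_atTop (by linarith : 0 < a / 2 - 1 / 10)).const_mul_atTop
      (by positivity : 0 < (κ / 2) ^ (1 / 2 : ℝ))).eventually_ge_atTop _
  have ev4 : ∀ᶠ X : ℝ in atTop, (Q : ℝ) ^ 4 * B ≤ X := eventually_ge_atTop _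
  obtain ⟨X₀, hX₀⟩ := eventually_atTop.1
    (ev1.and (ev2.and (ev3.and (ev4.and (eventually_ge_atTop (3 : ℝ))))))
  refine ⟨c * κ ^ 2 / 4, X₀, by positivity, fun X hX => ?_⟩
  obtain ⟨f1, f2, f3, f4, f5⟩ := hX₀ X hX
  have hX0 : 0 < X := by linarith
  have hX1 : 1 ≤ X := by linarith
  -- the fourth root
  obtain ⟨x, hx⟩ : ∃ x : ℝ, x = (X / B) ^ (1 / 4 : ℝ) := ⟨_, rfl⟩
  have hXB : 0 < X / B := by positivity
  have hx0 : 0 < x := by rw [hx]; positivity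
  have hx4 : x ^ 4 = X / B := by
    rw [hx, ← Real.rpow_natCast, ← Real.rpow_mul hXB.le]
    norm_num
  have hx3 : x ^ 3 ≤ X ^ (3 / 4 : ℝ) := by
    have e1 : x ^ 3 = (X / B) ^ (3 / 4 : ℝ) := by
      rw [hx, ← Real.rpow_natCast, ← Real.rpow_mul hXB.le]
      norm_num
    rw [e1]
    exact Real.rpow_le_rpow hXB.le (div_le_self hX0.le hBr) (by norm_num)
  have hxX : x ≤ X ^ (1 / 4 : ℝ) := by
    rw [hx]
    exact Real.rpow_le_rpow hXB.le (div_le_self hX0.le hBr) (by norm_num)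
  have hxX' : X ^ (1 / 4 : ℝ) / B ≤ x := by
    rw [hx, Real.div_rpow hX0.le (by positivity)]
    apply div_le_div_of_nonneg_left (by positivity) (by positivity)
    calc (B : ℝ) ^ (1 / 4 : ℝ) ≤ (B : ℝ) ^ (1 : ℝ) :=
          Real.rpow_le_rpow_of_exponent_le hBr (by norm_num)
      _ = B := Real.rpow_one _
  have hQx : (Q : ℝ) ≤ x := by
    have h1 : (Q : ℝ) ^ 4 ≤ x ^ 4 := by
      rw [hx4, le_div_iff₀ (by linarith)]
      exact f4
    exact le_of_pow_le_pow_left₀ (by norm_num) hx0.le h1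
  have hx1 : 1 ≤ x := hQr.trans hQx
  -- the side of the box
  obtain ⟨M, hMd⟩ : ∃ M : ℕ, M = ⌊κ * X ^ a⌋₊ := ⟨_, rfl⟩
  have hκX0 : 0 ≤ κ * X ^ a := by positivity
  have hMle : (M : ℝ) ≤ κ * X ^ a := by rw [hMd]; exact Nat.floor_le hκX0
  have hMlt : κ * X ^ a < M + 1 := by rw [hMd]; exact Nat.lt_floor_add_one _
  have hM₀r : (0 : ℝ) ≤ M₀ := Nat.cast_nonneg _
  have hM3 : (3 : ℝ) ≤ M := by linarith
  have hM₀M : M₀ ≤ M := by
    have : (M₀ : ℝ) < (M : ℝ) := by linarith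
    exact_mod_cast this.le
  have hM0 : (0 : ℝ) < M := by linarith
  have hMge : κ / 2 * X ^ a ≤ M := by linarith
  -- the shift
  obtain ⟨S, hSd⟩ : ∃ S : ℕ, S = ⌈(x - 1) / Q⌉₊ := ⟨_, rfl⟩
  have hS1 : x ≤ 1 + Q * S := by
    have h1 : (x - 1) / Q ≤ S := by rw [hSd]; exact Nat.le_ceil _
    rw [div_le_iff₀ (by linarith)] at h1
    linarith
  have hS2 : (1 : ℝ) + Q * S ≤ x + Q := by
    have h1 : (S : ℝ) < (x - 1) / Q + 1 := by
      rw [hSd]
      exact Nat.ceil_lt_add_one (div_nonneg (by linarith) (by linarith))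
    have h2 : (Q : ℝ) * S ≤ Q * ((x - 1) / Q + 1) := mul_le_mul_of_nonneg_left h1.le (by linarith)
    have h3 : (Q : ℝ) * ((x - 1) / Q + 1) = x - 1 + Q := by
      have : (Q : ℝ) ≠ 0 := by positivity
      field_simp
    linarith
  have hSM : (S : ℝ) ≤ (M : ℝ) ^ σ := by
    have h1 : (S : ℝ) ≤ 2 * X ^ (1 / 4 : ℝ) := by
      have h2 : (S : ℝ) ≤ Q * S := le_mul_of_one_le_left (Nat.cast_nonneg _) hQr
      linarith
    have h2 : 2 * X ^ (1 / 4 : ℝ) ≤ (κ / 2) ^ σ * X ^ (σ * a) := by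
      have e1 : X ^ (σ * a) = X ^ (σ * a - 1 / 4) * X ^ (1 / 4 : ℝ) := by
        rw [← Real.rpow_add hX0]
        congr 1
        ring
      rw [e1, ← mul_assoc]
      exact mul_le_mul_of_nonneg_right f2 (by positivity)
    have h3 : (κ / 2) ^ σ * X ^ (σ * a) = (κ / 2 * X ^ a) ^ σ := by
      rw [Real.mul_rpow (by positivity) (by positivity), ← Real.rpow_mul hX0.le, mul_comm a σ]
    rw [h3] at h2
    exact (h1.trans h2).trans (Real.rpow_le_rpow (by positivity) hMge (by linarith))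
  obtain ⟨V, hV, hVm⟩ := h M S hM₀M hSM
  -- the width
  obtain ⟨w, hw⟩ : ∃ w : ℝ, w = 3 * Q * M := ⟨_, rfl⟩
  have hw0 : 0 ≤ w := by rw [hw]; positivity
  have hwX : w * (B * E) ≤ X ^ a := by
    have h1 : w ≤ 3 * Q * (κ * X ^ a) := by rw [hw]; gcongr
    have h2 : 3 * Q * (κ * X ^ a) = X ^ a / (B * E) := by
      rw [← mul_assoc, hκE]
      ring
    rw [h2, le_div_iff₀ (by positivity)] at h1
    exact h1
  have hwx : w ≤ x := by
    have h1 : X ^ a ≤ X ^ (1 / 4 : ℝ) := Real.rpow_le_rpow_of_exponent_le hX1 ha1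
    have h2 : w * B ≤ X ^ (1 / 4 : ℝ) := by
      have h3 : w * B ≤ w * (B * E) := by
        apply mul_le_mul_of_nonneg_left _ hw0
        nlinarith
      linarith
    have h3 : w ≤ X ^ (1 / 4 : ℝ) / B := by
      rw [le_div_iff₀ (by linarith)]
      exact h2
    exact h3.trans hxX'
  -- the values
  have hsub : ((V.image (fun v => B * v) : Finset ℕ) : Set ℕ) ⊆ {d : ℕ | X ≤ d ∧ (d : ℝ) ≤ X + X ^ θ ∧
        d ≡ B [MOD m] ∧ B ∣ d ∧ Squarefree d ∧
        Cong d ∧ (d / B).primeFactors.card ≤ 3 ∧ (d / B).Coprime (2 * B * m) ∧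
        ∀ p : ℕ, p.Prime → p ∣ d / B → X ^ (1 / 10 : ℝ) ≤ p ∧ (p % 8 = 1 ∨ p % 8 = 7) ∧
          IsSquare (((-(B : ℤ) : ℤ)) : ZMod p)} := by
    intro d hd
    rw [mem_coe, mem_image] at hd
    obtain ⟨v, hv, rfl⟩ := hd
    obtain ⟨g1, g2, gp, r, s, hr, hr2, hs, hs2, hQr', hsQ, hvF⟩ := hVm v hv
    have hs1 : 1 ≤ s := by omega
    have hv1 : v ≡ 1 [MOD Q] := by
      have e1 : (r : ℤ) ≡ 0 [ZMOD Q] := (Int.modEq_zero_iff_dvd).2 (by exact_mod_cast hQr')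
      have e2 : (s : ℤ) ≡ 1 [ZMOD Q] := by
        have := (Int.natCast_modEq_iff).2 hsQ
        simpa using this
      have e3 := FF_modEq (B := B) e1 e2
      have e4 : FF B 0 1 = 1 := by unfold FF; ring
      rw [e4, ← hvF] at e3
      exact (Int.natCast_modEq_iff).1 (by simpa using e3)
    have hcop : v.Coprime (2 * B * m) := by
      have h1 : v.Coprime Q := by
        rw [Nat.Coprime, Nat.ModEq.gcd_eq hv1]
        simp
      exact h1.coprime_dvd_right hQ0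
    have hcopB : v.Coprime B := hcop.coprime_dvd_right ⟨2 * m, by ring⟩
    have hcop2 : v.Coprime 2 := hcop.coprime_dvd_right ⟨B * m, by ring⟩
    have hdiv : B * v / B = v := Nat.mul_div_cancel_left v hB1
    have hne : B * r ^ 2 ≠ s ^ 2 := by
      intro he
      have h1 : Q ∣ s ^ 2 := by
        rw [← he]
        exact (hQr'.mul_left (B * r)).trans (by
          rw [show B * r ^ 2 = B * r * r by ring])
      have h2 : s.Coprime Q := by
        rw [Nat.Coprime, Nat.ModEq.gcd_eq hsQ]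
        simp
      have h3 : Q ∣ 1 := (h2.pow_left 2).symm.dvd_of_dvd_mul_left (by simpa using h1)
      have h4 : 2 ∣ 1 := ((Dvd.intro (B * m) (by ring)).trans hQ0).trans h3
      norm_num at h4
    have hvr : (v : ℝ) = (s : ℝ) ^ 4 + 6 * B * (r : ℝ) ^ 2 * (s : ℝ) ^ 2 + (B : ℝ) ^ 2 * (r : ℝ) ^ 4 := by
      have h1 := congrArg (fun t : ℤ => (t : ℝ)) hvF
      simp only [FF] at h1
      push_cast at h1
      exact h1
    simp only [Set.mem_setOf_eq]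
    rw [hdiv]
    refine ⟨?_, ?_, ?_, Dvd.intro _ rfl, ?_, cong_of B r s v hB1 hr hs1 hne hvF, g2, hcop, ?_⟩
    · -- lower bound
      push_cast
      have h1 : x ≤ s := by
        have h2 : ((1 + Q * S : ℕ) : ℝ) ≤ s := by exact_mod_cast hs
        push_cast at h2
        linarith
      have h2 : x ^ 4 ≤ (v : ℝ) := by
        have h3 : x ^ 4 ≤ (s : ℝ) ^ 4 := pow_le_pow_left₀ hx0.le h1 4
        have h4 : 0 ≤ 6 * B * (r : ℝ) ^ 2 * (s : ℝ) ^ 2 + (B : ℝ) ^ 2 * (r : ℝ) ^ 4 := by positivity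
        linarith
      rw [hx4, div_le_iff₀ (by linarith)] at h2
      linarith
    · -- upper bound
      push_cast
      have h1 : (s : ℝ) ≤ x + w := by
        have h2 : (s : ℝ) ≤ ((1 + Q * S + 2 * Q * M : ℕ) : ℝ) := by exact_mod_cast hs2
        push_cast at h2
        have h3 : (Q : ℝ) ≤ Q * M := le_mul_of_one_le_right (by linarith) (by linarith)
        have h4 : w = Q * M + 2 * Q * M := by rw [hw]; ring
        rw [h4]
        linarith
      have h2 : (r : ℝ) ≤ w := by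
        have h3 : (r : ℝ) ≤ ((2 * Q * M : ℕ) : ℝ) := by exact_mod_cast hr2
        push_cast at h3
        have h4 : w = Q * M + 2 * Q * M := by rw [hw]; ring
        have h5 : (0 : ℝ) ≤ Q * M := by positivity
        rw [h4]
        linarith
      have h3 := four_le hx0.le hw0 hwx (Nat.cast_nonneg r) h2 (Nat.cast_nonneg s) h1
        (Nat.cast_nonneg B)
      rw [← hvr, ← hE] at h3
      calc (B : ℝ) * v ≤ B * (x ^ 4 + E * w * x ^ 3) := mul_le_mul_of_nonneg_left h3 (by linarith)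
        _ = B * x ^ 4 + (w * (B * E)) * x ^ 3 := by ring
        _ ≤ X + X ^ a * X ^ (3 / 4 : ℝ) := by
            apply add_le_add
            · rw [hx4]
              apply le_of_eq
              have : (B : ℝ) ≠ 0 := by positivity
              field_simp
            · exact mul_le_mul hwX hx3 (by positivity) (by positivity)
        _ = X + X ^ θ := by
            rw [← Real.rpow_add hX0]
            congr 2
            linarith
    · have h1 : v ≡ 1 [MOD m] := hv1.of_dvd ((Dvd.intro_left (2 * B) rfl).trans hQ0)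
      simpa using (Nat.ModEq.refl B).mul h1
    · exact (Nat.squarefree_mul hcopB.symm).2 ⟨hB, g1⟩
    · intro p hp hpv
      refine ⟨?_, ?_⟩
      · refine le_trans ?_ (gp p hp hpv)
        calc X ^ (1 / 10 : ℝ) = 1 * X ^ (1 / 10 : ℝ) := (one_mul _).symm
          _ ≤ (κ / 2) ^ (1 / 2 : ℝ) * X ^ (a / 2 - 1 / 10) * X ^ (1 / 10 : ℝ) :=
              mul_le_mul_of_nonneg_right f3 (by positivity)
          _ = (κ / 2 * X ^ a) ^ (1 / 2 : ℝ) := by
              rw [Real.mul_rpow (by positivity) (by positivity), ← Real.rpow_mul hX0.le, mul_assoc,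
                ← Real.rpow_add hX0]
              congr 2
              ring
          _ ≤ (M : ℝ) ^ (1 / 2 : ℝ) := Real.rpow_le_rpow (by positivity) hMge (by norm_num)
      · apply primes_of hvF g1 hp hpv
        · rintro rfl
          have := Nat.dvd_gcd hpv (dvd_refl 2)
          rw [hcop2] at this
          norm_num at this
        · intro hpB
          have := Nat.dvd_gcd hpv hpB
          rw [hcopB] at this
          exact hp.one_lt.ne' (Nat.dvd_one.1 this)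
  have hfin : {d : ℕ | X ≤ d ∧ (d : ℝ) ≤ X + X ^ θ ∧
        d ≡ B [MOD m] ∧ B ∣ d ∧ Squarefree d ∧
        Cong d ∧ (d / B).primeFactors.card ≤ 3 ∧ (d / B).Coprime (2 * B * m) ∧
        ∀ p : ℕ, p.Prime → p ∣ d / B → X ^ (1 / 10 : ℝ) ≤ p ∧ (p % 8 = 1 ∨ p % 8 = 7) ∧
          IsSquare (((-(B : ℤ) : ℤ)) : ZMod p)}.Finite := by
    apply (Set.finite_Iic ⌊X + X ^ θ⌋₊).subset
    intro d hd
    exact Nat.le_floor hd.2.1
  have hcard : (V.card : ℝ) ≤ (({d : ℕ | X ≤ d ∧ (d : ℝ) ≤ X + X ^ θ ∧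
        d ≡ B [MOD m] ∧ B ∣ d ∧ Squarefree d ∧
        Cong d ∧ (d / B).primeFactors.card ≤ 3 ∧ (d / B).Coprime (2 * B * m) ∧
        ∀ p : ℕ, p.Prime → p ∣ d / B → X ^ (1 / 10 : ℝ) ≤ p ∧ (p % 8 = 1 ∨ p % 8 = 7) ∧
          IsSquare (((-(B : ℤ) : ℤ)) : ZMod p)}.ncard : ℕ) : ℝ) := by
    have h1 := Set.ncard_le_ncard hsub hfin
    rw [Set.ncard_coe_finset, Finset.card_image_of_injective _ (fun a b hab =>
      Nat.eq_of_mul_eq_mul_left hB1 hab)] at h1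
    exact_mod_cast h1
  refine le_trans ?_ (hV.trans hcard)
  -- the size
  have hlogM : 0 < Real.log M := Real.log_pos (by linarith)
  have hMX : (M : ℝ) ≤ X := by
    have h1 : X ^ a ≤ X ^ (1 : ℝ) := Real.rpow_le_rpow_of_exponent_le hX1 (by linarith)
    rw [Real.rpow_one] at h1
    have h2 : κ * X ^ a ≤ 1 * X ^ a := mul_le_mul_of_nonneg_right hκ1 (by positivity)
    linarith
  have hlogX : Real.log M ≤ Real.log X := Real.log_le_log hM0 hMX
  have hM2 : κ ^ 2 / 4 * X ^ (2 * θ - 3 / 2) ≤ (M : ℝ) ^ 2 := by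
    have h1 : X ^ (2 * θ - 3 / 2) = (X ^ a) ^ 2 := by
      rw [← Real.rpow_natCast, ← Real.rpow_mul hX0.le]
      congr 1
      push_cast
      linarith
    rw [h1]
    calc κ ^ 2 / 4 * (X ^ a) ^ 2 = (κ / 2 * X ^ a) ^ 2 := by ring
      _ ≤ (M : ℝ) ^ 2 := pow_le_pow_left₀ (by positivity) hMge 2
  calc c * κ ^ 2 / 4 * X ^ (2 * θ - 3 / 2) / Real.log X
      = c * (κ ^ 2 / 4 * X ^ (2 * θ - 3 / 2)) / Real.log X := by ring
    _ ≤ c * (M : ℝ) ^ 2 / Real.log M := by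
        gcongr

end Pool.Agent.Y675.TS
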