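import Pool.Agent.Y675.TS.Fin3
import Pool.Agent.Y675.TC.Fin5

/-!
Project TS (helper675): the unconditional theorem in short intervals and all residue classes.
-/

set_option autoImplicit false

namespace Pool.Agent.Y675.TS

open Finset Pool.Agent.Y675.TC Filter

/-- congruent multiples of `B` in the class of `B` modulo `m` in short intervals -/
theorem main' (B m : ℕ) (hB : Squarefree B) (hm : 1 ≤ m) (θ : ℝ) (hθ : 35 / 36 < θ)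
    (hθ1 : θ ≤ 1) : ∃ c X₀ : ℝ, 0 < c ∧ ∀ X : ℝ, X₀ ≤ X →
      c * X ^ (2 * θ - 3 / 2) / Real.log X ≤ (({d : ℕ | X ≤ d ∧ (d : ℝ) ≤ X + X ^ θ ∧
        d ≡ B [MOD m] ∧ B ∣ d ∧ Squarefree d ∧
        Cong d ∧ (d / B).primeFactors.card ≤ 3 ∧ (d / B).Coprime (2 * B * m) ∧
        ∀ p : ℕ, p.Prime → p ∣ d / B → X ^ (1 / 10 : ℝ) ≤ p ∧ (p % 8 = 1 ∨ p % 8 = 7) ∧
          IsSquare (((-(B : ℤ) : ℤ)) : ZMod p)}.ncard : ℕ) : ℝ) :=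
  main (tLev Pool.Agent.Y705.TC.t) Pool.Agent.Y655.TC.tM Pool.Agent.Y655.TC.tP
    Pool.Agent.Y421.TC.t B m hB hm θ hθ hθ1

/-- all residue classes -/
theorem cls (a m : ℕ) (hm : 1 ≤ m) (hg : Squarefree (Nat.gcd a m)) (θ : ℝ) (hθ : 35 / 36 < θ)
    (hθ1 : θ ≤ 1) : ∃ c X₀ : ℝ, 0 < c ∧ ∀ X : ℝ, X₀ ≤ X →
      c * X ^ (2 * θ - 3 / 2) / Real.log X ≤ (({d : ℕ | X ≤ d ∧ (d : ℝ) ≤ X + X ^ θ ∧
        d ≡ a [MOD m] ∧ Squarefree d ∧ Cong d ∧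
        d.primeFactors.card ≤ (Nat.gcd a m).primeFactors.card + 4}.ncard : ℕ) : ℝ) := by
  obtain ⟨q, hq, hq2, hsq, hqa, hqc⟩ := rep a m hm hg
  obtain ⟨c, X₀, hc, h⟩ := main' (Nat.gcd a m * q) m hsq hm θ hθ hθ1
  refine ⟨c, X₀, hc, fun X hX => (h X hX).trans ?_⟩
  have hfin : {d : ℕ | X ≤ d ∧ (d : ℝ) ≤ X + X ^ θ ∧ d ≡ a [MOD m] ∧ Squarefree d ∧ Cong d ∧
        d.primeFactors.card ≤ (Nat.gcd a m).primeFactors.card + 4}.Finite := by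
    apply (Set.finite_Iic ⌊X + X ^ θ⌋₊).subset
    intro d hd
    exact Nat.le_floor hd.2.1
  have h1 := Set.ncard_le_ncard (s := {d : ℕ | X ≤ d ∧ (d : ℝ) ≤ X + X ^ θ ∧
        d ≡ Nat.gcd a m * q [MOD m] ∧ Nat.gcd a m * q ∣ d ∧ Squarefree d ∧
        Cong d ∧ (d / (Nat.gcd a m * q)).primeFactors.card ≤ 3 ∧
        (d / (Nat.gcd a m * q)).Coprime (2 * (Nat.gcd a m * q) * m) ∧
        ∀ p : ℕ, p.Prime → p ∣ d / (Nat.gcd a m * q) → X ^ (1 / 10 : ℝ) ≤ p ∧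
          (p % 8 = 1 ∨ p % 8 = 7) ∧
          IsSquare (((-((Nat.gcd a m * q : ℕ) : ℤ) : ℤ)) : ZMod p)}) (by
    rintro d ⟨h1, h2, h3, h4, h5, h6, h7, -, -⟩
    exact ⟨h1, h2, h3.trans hqa, h5, h6, omega_bound h4 h5.ne_zero hqc h7⟩) hfin
  exact_mod_cast h1

end Pool.Agent.Y675.TS
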